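import Pool.Agent.H77.BC.Defs

/-!
# Closure properties of definable sets in coded types (board bcp_modules)
-/

set_option autoImplicit false

open Set

namespace Pool.Agent.H77.BC

variable {M : Type} {U : RU M} {α β γ δ : Type} [Cod M α] [Cod M β] [Cod M γ] [Cod M δ]

theorem c_inj : Function.Injective (Cod.c (M := M) (α := α)) := Cod.inj

theorem mem_c {X : Set α} {a : α} : Cod.c (M := M) a ∈ Cod.c (M := M) '' X ↔ a ∈ X :=
  c_inj.mem_set_image

theorem D_inter {X Y : Set α} (hX : U.D X) (hY : U.D Y) : U.D (X ∩ Y) := by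
  unfold RU.D
  rw [image_inter c_inj]
  exact U.inter _ _ _ hX hY

theorem D_diff {X Y : Set α} (hX : U.D X) (hY : U.D Y) : U.D (X \ Y) := by
  unfold RU.D
  rw [image_sdiff c_inj, sdiff_eq]
  exact U.inter _ _ _ hX (U.compl _ _ hY)

theorem Def_union {ι : Type} [Finite ι] {A B : Set (ι → M)} (hA : U.Def ι A) (hB : U.Def ι B) :
    U.Def ι (A ∪ B) := by
  have h := U.compl _ _ (U.inter _ _ _ (U.compl _ _ hA) (U.compl _ _ hB))
  rwa [← compl_union, compl_compl] at h

theorem Def_empty {ι : Type} [Finite ι] : U.Def ι ∅ := by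
  have h := U.compl _ _ (U.full ι)
  rwa [compl_univ] at h

theorem D_union {X Y : Set α} (hX : U.D X) (hY : U.D Y) : U.D (X ∪ Y) := by
  unfold RU.D
  rw [image_union]
  exact Def_union hX hY

theorem D_empty : U.D (∅ : Set α) := by
  unfold RU.D
  rw [image_empty]
  exact Def_empty

theorem D_compl [Ful U α] {X : Set α} (hX : U.D X) : U.D Xᶜ := by
  rw [compl_eq_univ_sdiff]
  exact D_diff Ful.full hX

theorem Def_iInter {ι : Type} [Finite ι] {κ : Type} [Finite κ] (A : κ → Set (ι → M))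
    (h : ∀ k, U.Def ι (A k)) : U.Def ι (⋂ k, A k) := by
  classical
  cases nonempty_fintype κ
  have key : ∀ s : Finset κ, U.Def ι (⋂ k ∈ s, A k) := by
    intro s
    induction s using Finset.induction_on with
    | empty => simpa using U.full ι
    | insert a s ha ih =>
      rw [Finset.set_biInter_insert]
      exact U.inter _ _ _ (h a) ih
  have := key Finset.univ
  simpa using this

theorem D_singleton (a : α) : U.D ({a} : Set α) := by
  unfold RU.D
  have h : Cod.c (M := M) '' ({a} : Set α) = ⋂ i, {x | x i = Cod.c (M := M) a i} := by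
    ext x
    rw [image_singleton, mem_singleton_iff, mem_iInter]
    exact ⟨fun h i => congrFun h i, fun h => funext fun i => h i⟩
  rw [h]
  exact Def_iInter _ fun i => U.point _ _ _

theorem c_prod (X : Set α) (Y : Set β) : Cod.c (M := M) '' (X ×ˢ Y) =
    {z | z ∘ Sum.inl ∈ Cod.c (M := M) '' X} ∩ {z | z ∘ Sum.inr ∈ Cod.c (M := M) '' Y} := by
  ext z
  constructor
  · rintro ⟨p, ⟨h1, h2⟩, rfl⟩
    exact ⟨⟨p.1, h1, rfl⟩, ⟨p.2, h2, rfl⟩⟩
  · rintro ⟨⟨a, ha, h1⟩, ⟨b, hb, h2⟩⟩
    refine ⟨(a, b), ⟨ha, hb⟩, ?_⟩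
    funext i
    rcases i with i | i
    · exact congrFun h1 i
    · exact congrFun h2 i

theorem D_prod {X : Set α} {Y : Set β} (hX : U.D X) (hY : U.D Y) : U.D (X ×ˢ Y) := by
  unfold RU.D
  rw [c_prod]
  exact U.inter _ _ _ (U.pull _ _ _ _ hX) (U.pull _ _ _ _ hY)

instance fulProd [Ful U α] [Ful U β] : Ful U (α × β) := ⟨by
  rw [← univ_prod_univ]
  exact D_prod Ful.full Ful.full⟩

/-- projection to the first factor -/
theorem D_ex {Z : Set (α × β)} (hZ : U.D Z) : U.D {a : α | ∃ b, (a, b) ∈ Z} := by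
  unfold RU.D
  have h : Cod.c (M := M) '' {a : α | ∃ b, (a, b) ∈ Z} =
      (fun y => y ∘ Sum.inl) '' (Cod.c (M := M) '' Z) := by
    ext x
    constructor
    · rintro ⟨a, ⟨b, hb⟩, rfl⟩
      exact ⟨_, ⟨(a, b), hb, rfl⟩, rfl⟩
    · rintro ⟨_, ⟨p, hp, rfl⟩, rfl⟩
      exact ⟨p.1, ⟨p.2, hp⟩, rfl⟩
  rw [h]
  exact U.image _ _ _ _ hZ

theorem D_swap {Z : Set (α × β)} (hZ : U.D Z) : U.D {p : β × α | (p.2, p.1) ∈ Z} := by
  unfold RU.D
  have h : Cod.c (M := M) '' {p : β × α | (p.2, p.1) ∈ Z} =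
      {y | y ∘ Sum.elim Sum.inr Sum.inl ∈ Cod.c (M := M) '' Z} := by
    ext y
    constructor
    · rintro ⟨p, hp, rfl⟩
      refine ⟨(p.2, p.1), hp, ?_⟩
      funext i
      rcases i with i | i <;> rfl
    · rintro ⟨p, hp, h⟩
      refine ⟨(p.2, p.1), hp, ?_⟩
      funext i
      rcases i with i | i
      · exact congrFun h (Sum.inr i)
      · exact congrFun h (Sum.inl i)
  rw [h]
  exact U.pull _ _ _ _ hZ

theorem D_ex' {Z : Set (α × β)} (hZ : U.D Z) : U.D {b : β | ∃ a, (a, b) ∈ Z} := D_ex (D_swap hZ)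

/-! ### predicates -/

theorem D_and {p q : α → Prop} (hp : U.D {a | p a}) (hq : U.D {a | q a}) :
    U.D {a | p a ∧ q a} := D_inter hp hq

theorem D_or {p q : α → Prop} (hp : U.D {a | p a}) (hq : U.D {a | q a}) :
    U.D {a | p a ∨ q a} := D_union hp hq

theorem D_not [Ful U α] {p : α → Prop} (hp : U.D {a | p a}) : U.D {a | ¬ p a} := D_compl hp

theorem D_imp [Ful U α] {p q : α → Prop} (hp : U.D {a | p a}) (hq : U.D {a | q a}) :
    U.D {a | p a → q a} := by
  have h := D_or (D_not hp) hq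
  have e : {a | p a → q a} = {a | ¬ p a ∨ q a} := by
    ext a
    exact imp_iff_not_or
  rwa [e]

theorem D_true [Ful U α] {p : Prop} (hp : p) : U.D {_a : α | p} := by
  have e : {_a : α | p} = univ := by
    ext a
    exact ⟨fun _ => trivial, fun _ => hp⟩
  rw [e]
  exact Ful.full

theorem D_const [Ful U α] {p : Prop} : U.D {_a : α | p} := by
  by_cases hp : p
  · exact D_true hp
  · have e : {_a : α | p} = ∅ := by
      ext a
      exact ⟨fun h => (hp h).elim, fun h => h.elim⟩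
    rw [e]
    exact D_empty

theorem D_exists {p : α → β → Prop} (hp : U.D {z : α × β | p z.1 z.2}) :
    U.D {a | ∃ b, p a b} := D_ex hp

theorem D_forall [Ful U α] [Ful U β] {p : α → β → Prop} (hp : U.D {z : α × β | p z.1 z.2}) :
    U.D {a | ∀ b, p a b} := by
  have h := D_not (D_exists (p := fun a b => ¬ p a b) (D_not hp))
  have e : {a | ∀ b, p a b} = {a | ¬ ∃ b, ¬ p a b} := by
    ext a
    exact not_exists_not.symm
  rwa [e]

theorem D_finite {X : Set α} (hX : X.Finite) : U.D X := by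
  induction X, hX using Set.Finite.induction_on with
  | empty => exact D_empty
  | insert _ _ ih =>
    rw [insert_eq]
    exact D_union (D_singleton _) ih

theorem D_forall_fin {κ : Type} [Finite κ] [Ful U α] {p : κ → α → Prop}
    (hp : ∀ k, U.D {a | p k a}) : U.D {a | ∀ k, p k a} := by
  classical
  cases nonempty_fintype κ
  have key : ∀ s : Finset κ, U.D {a | ∀ k ∈ s, p k a} := by
    intro s
    induction s using Finset.induction_on with
    | empty =>
      have e : {x | ∀ k ∈ (∅ : Finset κ), p k x} = univ := by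
        ext x
        simp
      rw [e]
      exact Ful.full
    | insert a s ha ih =>
      have e : {x | ∀ k ∈ insert a s, p k x} = {x | p a x ∧ ∀ k ∈ s, p k x} := by
        ext x
        simp
      rw [e]
      exact D_and (hp a) ih
  have := key Finset.univ
  simpa using this

/-! ### functions -/

theorem D_eqp [Ful U α] : U.D {p : α × α | p.1 = p.2} := by
  unfold RU.D
  have h : Cod.c (M := M) '' {p : α × α | p.1 = p.2} =
      {z | z ∘ Sum.inl ∈ Cod.c (M := M) '' (univ : Set α)} ∩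
        ⋂ i, {z | z (Sum.inl i) = z (Sum.inr i)} := by
    ext z
    rw [mem_inter_iff, mem_iInter]
    constructor
    · rintro ⟨p, hp, rfl⟩
      refine ⟨⟨p.1, mem_univ _, rfl⟩, fun i => ?_⟩
      change Cod.c p.1 i = Cod.c p.2 i
      rw [show p.1 = p.2 from hp]
    · rintro ⟨⟨a, _, h1⟩, h2⟩
      refine ⟨(a, a), rfl, ?_⟩
      funext i
      rcases i with i | i
      · exact congrFun h1 i
      · exact (congrFun h1 i).trans (h2 i)
  rw [h]
  exact U.inter _ _ _ (U.pull _ _ _ _ Ful.full) (Def_iInter _ fun i => U.diag _ _ _)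

theorem DFn_preim {f : α → β} (hf : DFn U f) [Ful U α] {Y : Set β} (hY : U.D Y) :
    U.D {a | f a ∈ Y} := by
  have h := D_ex (D_inter hf (D_prod (Ful.full (U := U) (α := α)) hY))
  have e : {a | f a ∈ Y} = {a : α | ∃ b, (a, b) ∈ {p : α × β | p.2 = f p.1} ∩ univ ×ˢ Y} := by
    ext a
    constructor
    · intro h
      exact ⟨f a, rfl, mem_univ _, h⟩
    · rintro ⟨b, hb, -, h⟩
      have hb' : b = f a := hb
      rw [hb'] at h
      exact h
  rwa [e]

theorem DFn_image {f : α → β} (hf : DFn U f) [Ful U β] {X : Set α} (hX : U.D X) :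
    U.D (f '' X) := by
  have h := D_ex' (D_inter hf (D_prod hX (Ful.full (U := U) (α := β))))
  have e : f '' X = {b : β | ∃ a, (a, b) ∈ {p : α × β | p.2 = f p.1} ∩ X ×ˢ univ} := by
    ext b
    constructor
    · rintro ⟨a, ha, rfl⟩
      exact ⟨a, rfl, ha, mem_univ _⟩
    · rintro ⟨a, hb, ha, -⟩
      have hb' : b = f a := hb
      exact ⟨a, ha, hb'.symm⟩
  rwa [e]

theorem DFn_id [Ful U α] : DFn U (fun a : α => a) := by
  unfold DFn
  have e : {p : α × α | p.2 = p.1} = {p : α × α | p.1 = p.2} := by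
    ext p
    exact eq_comm
  rw [e]
  exact D_eqp

/-- three factors: exchange of the last two -/
theorem D_assoc {Z : Set (α × β × γ)} (hZ : U.D Z) :
    U.D {p : (α × β) × γ | (p.1.1, p.1.2, p.2) ∈ Z} := by
  unfold RU.D
  have h : Cod.c (M := M) '' {p : (α × β) × γ | (p.1.1, p.1.2, p.2) ∈ Z} =
      {y | y ∘ (Sum.elim (fun i => Sum.inl (Sum.inl i))
        (Sum.elim (fun i => Sum.inl (Sum.inr i)) fun i => Sum.inr i)) ∈
          Cod.c (M := M) '' Z} := by
    ext y
    constructor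
    · rintro ⟨p, hp, rfl⟩
      refine ⟨(p.1.1, p.1.2, p.2), hp, ?_⟩
      funext i
      rcases i with i | i | i <;> rfl
    · rintro ⟨p, hp, h⟩
      refine ⟨((p.1, p.2.1), p.2.2), hp, ?_⟩
      funext i
      rcases i with (i | i) | i
      · exact congrFun h (Sum.inl i)
      · exact congrFun h (Sum.inr (Sum.inl i))
      · exact congrFun h (Sum.inr (Sum.inr i))
  rw [h]
  exact U.pull _ _ _ _ hZ

/-- forget the middle factor -/
theorem D_skip [Ful U β] {Z : Set (α × γ)} (hZ : U.D Z) :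
    U.D {p : (α × β) × γ | (p.1.1, p.2) ∈ Z} := by
  unfold RU.D
  have h : Cod.c (M := M) '' {p : (α × β) × γ | (p.1.1, p.2) ∈ Z} =
      {y | y ∘ (Sum.elim (fun i => Sum.inl (Sum.inl i)) fun i => Sum.inr i) ∈
          Cod.c (M := M) '' Z} ∩
      {y | y ∘ (fun i => Sum.inl (Sum.inr i)) ∈ Cod.c (M := M) '' (univ : Set β)} := by
    ext y
    constructor
    · rintro ⟨p, hp, rfl⟩
      refine ⟨⟨(p.1.1, p.2), hp, ?_⟩, ⟨p.1.2, mem_univ _, rfl⟩⟩
      funext i
      rcases i with i | i <;> rfl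
    · rintro ⟨⟨p, hp, h⟩, ⟨b, -, h2⟩⟩
      refine ⟨((p.1, b), p.2), hp, ?_⟩
      funext i
      rcases i with (i | i) | i
      · exact congrFun h (Sum.inl i)
      · exact congrFun h2 i
      · exact congrFun h (Sum.inr i)
  rw [h]
  exact U.inter _ _ _ (U.pull _ _ _ _ hZ) (U.pull _ _ _ _ Ful.full)

theorem DFn_fst [Ful U α] [Ful U β] : DFn U (fun p : α × β => p.1) :=
  D_skip (β := β) (DFn_id (U := U) (α := α))

theorem DFn_comp {f : α → β} {g : β → γ} (hg : DFn U g) (hf : DFn U f) [Ful U α] [Ful U γ] :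
    DFn U (fun a => g (f a)) := by
  unfold DFn
  have h1 : U.D {p : (α × β) × γ | p.1.2 = f p.1.1} := by
    have h := D_prod hf (Ful.full (U := U) (α := γ))
    have e : {p : (α × β) × γ | p.1.2 = f p.1.1} = {p : α × β | p.2 = f p.1} ×ˢ univ := by
      ext p
      exact ⟨fun h => ⟨h, mem_univ _⟩, fun h => h.1⟩
    rwa [e]
  have h2 : U.D {p : (α × β) × γ | p.2 = g p.1.2} := by
    have h := D_assoc (D_prod (Ful.full (U := U) (α := α)) hg)
    have e : {p : (α × β) × γ | p.2 = g p.1.2} =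
        {p : (α × β) × γ | (p.1.1, p.1.2, p.2) ∈ univ ×ˢ {p : β × γ | p.2 = g p.1}} := by
      ext p
      exact ⟨fun h => ⟨mem_univ _, h⟩, fun h => h.2⟩
    rwa [e]
  have h3 := D_inter h1 h2
  -- reorder to (α × γ) × β
  have h4 : U.D {p : (α × γ) × β | p.2 = f p.1.1 ∧ p.1.2 = g p.2} := by
    have hA := D_swap h3
    have hB : U.D {q : (γ × α) × β | ((q.1.2, q.2), q.1.1) ∈
        {p : (α × β) × γ | p.1.2 = f p.1.1} ∩ {p : (α × β) × γ | p.2 = g p.1.2}} :=
      D_assoc (α := γ) (β := α) (γ := β) hA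
    unfold RU.D at hB ⊢
    have e : Cod.c (M := M) '' {p : (α × γ) × β | p.2 = f p.1.1 ∧ p.1.2 = g p.2} =
        {y | y ∘ (Sum.elim (Sum.elim (fun i => Sum.inl (Sum.inr i)) fun i => Sum.inl (Sum.inl i))
          fun i => Sum.inr i) ∈ Cod.c (M := M) '' {q : (γ × α) × β | ((q.1.2, q.2), q.1.1) ∈
            {p : (α × β) × γ | p.1.2 = f p.1.1} ∩ {p : (α × β) × γ | p.2 = g p.1.2}}} := by
      ext y
      constructor
      · rintro ⟨p, hp, rfl⟩
        refine ⟨((p.1.2, p.1.1), p.2), ⟨hp.1, hp.2⟩, ?_⟩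
        funext i
        rcases i with (i | i) | i <;> rfl
      · rintro ⟨p, hp, h⟩
        refine ⟨((p.1.2, p.1.1), p.2), ⟨hp.1, hp.2⟩, ?_⟩
        funext i
        rcases i with (i | i) | i
        · exact congrFun h (Sum.inl (Sum.inr i))
        · exact congrFun h (Sum.inl (Sum.inl i))
        · exact congrFun h (Sum.inr i)
    rw [e]
    exact U.pull _ _ _ _ hB
  have h5 := D_ex h4
  have e : {p : α × γ | p.2 = g (f p.1)} =
      {a : α × γ | ∃ b, (a, b) ∈ {p : (α × γ) × β | p.2 = f p.1.1 ∧ p.1.2 = g p.2}} := by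
    ext p
    constructor
    · intro h
      exact ⟨f p.1, rfl, h⟩
    · rintro ⟨b, hb, h⟩
      have hb' : b = f p.1 := hb
      rw [hb'] at h
      exact h
  rwa [e]

theorem DFn_swap [Ful U α] [Ful U β] : DFn U (fun p : α × β => (p.2, p.1)) := by
  unfold DFn RU.D
  have e : Cod.c (M := M) '' {p : (α × β) × (β × α) | p.2 = (p.1.2, p.1.1)} =
      {z | z ∘ Sum.inl ∈ Cod.c (M := M) '' (univ : Set (α × β))} ∩
        ((⋂ i, {z | z (Sum.inr (Sum.inl i)) = z (Sum.inl (Sum.inr i))}) ∩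
          ⋂ i, {z | z (Sum.inr (Sum.inr i)) = z (Sum.inl (Sum.inl i))}) := by
    ext z
    rw [mem_inter_iff, mem_inter_iff, mem_iInter, mem_iInter]
    constructor
    · rintro ⟨p, hp, rfl⟩
      refine ⟨⟨p.1, mem_univ _, rfl⟩, fun i => ?_, fun i => ?_⟩
      · change Cod.c p.2.1 i = Cod.c p.1.2 i
        rw [show p.2 = (p.1.2, p.1.1) from hp]
      · change Cod.c p.2.2 i = Cod.c p.1.1 i
        rw [show p.2 = (p.1.2, p.1.1) from hp]
    · rintro ⟨⟨a, _, h1⟩, h2, h3⟩
      refine ⟨(a, (a.2, a.1)), rfl, ?_⟩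
      funext i
      rcases i with i | i | i
      · exact congrFun h1 i
      · exact (congrFun h1 (Sum.inr i)).trans (h2 i).symm
      · exact (congrFun h1 (Sum.inl i)).trans (h3 i).symm
  rw [e]
  exact U.inter _ _ _ (U.pull _ _ _ _ Ful.full)
    (U.inter _ _ _ (Def_iInter _ fun i => U.diag _ _ _) (Def_iInter _ fun i => U.diag _ _ _))

theorem DFn_snd [Ful U α] [Ful U β] : DFn U (fun p : α × β => p.2) :=
  DFn_comp (f := fun p : α × β => (p.2, p.1)) (g := fun p : β × α => p.1) DFn_fst DFn_swap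

theorem DFn_const [Ful U α] (b : β) : DFn U (fun _ : α => b) := by
  unfold DFn
  have h := D_prod (Ful.full (U := U) (α := α)) (D_singleton (U := U) b)
  have e : {p : α × β | p.2 = b} = univ ×ˢ {b} := by
    ext p
    exact ⟨fun h => ⟨mem_univ _, h⟩, fun h => h.2⟩
  rwa [e]

theorem DFn_pair {f : α → β} {g : α → γ} (hf : DFn U f) (hg : DFn U g) [Ful U α] [Ful U β]
    [Ful U γ] : DFn U (fun a => (f a, g a)) := by
  unfold DFn RU.D
  have e : Cod.c (M := M) '' {p : α × (β × γ) | p.2 = (f p.1, g p.1)} =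
      {z | z ∘ (Sum.elim Sum.inl fun i => Sum.inr (Sum.inl i)) ∈
        Cod.c (M := M) '' {p : α × β | p.2 = f p.1}} ∩
      {z | z ∘ (Sum.elim Sum.inl fun i => Sum.inr (Sum.inr i)) ∈
        Cod.c (M := M) '' {p : α × γ | p.2 = g p.1}} := by
    ext z
    constructor
    · rintro ⟨p, hp, rfl⟩
      refine ⟨⟨(p.1, p.2.1), ?_, ?_⟩, ⟨(p.1, p.2.2), ?_, ?_⟩⟩
      · exact (congrArg Prod.fst hp : p.2.1 = f p.1)
      · funext i
        rcases i with i | i <;> rfl
      · exact (congrArg Prod.snd hp : p.2.2 = g p.1)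
      · funext i
        rcases i with i | i <;> rfl
    · rintro ⟨⟨p, hp, h1⟩, ⟨q, hq, h2⟩⟩
      have hpq : p.1 = q.1 := Cod.inj (M := M) (funext fun i =>
        (congrFun h1 (Sum.inl i)).trans (congrFun h2 (Sum.inl i)).symm)
      refine ⟨(p.1, (p.2, q.2)), ?_, ?_⟩
      · refine Prod.ext ?_ ?_
        · exact hp
        · change q.2 = g p.1
          rw [hpq]
          exact hq
      · funext i
        rcases i with i | i | i
        · exact congrFun h1 (Sum.inl i)
        · exact congrFun h1 (Sum.inr i)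
        · exact congrFun h2 (Sum.inr i)
  rw [e]
  exact U.inter _ _ _ (U.pull _ _ _ _ hf) (U.pull _ _ _ _ hg)

theorem D_eqf [Ful U α] [Ful U β] {f g : α → β} (hf : DFn U f) (hg : DFn U g) :
    U.D {a | f a = g a} :=
  DFn_preim (Y := {p : β × β | p.1 = p.2}) (DFn_pair hf hg) D_eqp

/-- substitution into a predicate -/
theorem D_subst [Ful U α] {p : β → Prop} (hp : U.D {b | p b}) {f : α → β} (hf : DFn U f) :
    U.D {a | p (f a)} := DFn_preim (Y := {b | p b}) hf hp

/-! ### the basic types -/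

instance fulSelf : Ful U M := ⟨by
  unfold RU.D
  have e : Cod.c (M := M) '' (univ : Set M) = univ := by
    ext x
    refine ⟨fun _ => mem_univ _, fun _ => ⟨x (), mem_univ _, ?_⟩⟩
    funext i
    rfl
  rw [e]
  exact U.full _⟩

instance fulMult [Ful U α] : Ful U (Multiplicative α) := ⟨by
  have h := Ful.full (U := U) (α := α)
  unfold RU.D at h ⊢
  exact h⟩

instance fulFun {k : ℕ} [Ful U α] : Ful U (Fin k → α) := ⟨by
  unfold RU.D
  have e : Cod.c (M := M) '' (univ : Set (Fin k → α)) =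
      ⋂ i, {z | z ∘ (fun s => (i, s)) ∈ Cod.c (M := M) '' (univ : Set α)} := by
    ext z
    rw [mem_iInter]
    constructor
    · rintro ⟨x, -, rfl⟩ i
      exact ⟨x i, mem_univ _, rfl⟩
    · intro h
      choose x hx using fun i => h i
      refine ⟨x, mem_univ _, ?_⟩
      funext p
      exact congrFun (hx p.1).2 p.2
  rw [e]
  exact Def_iInter _ fun i => U.pull _ _ _ _ Ful.full⟩

instance fulMat {k l : ℕ} [Ful U α] : Ful U (Matrix (Fin k) (Fin l) α) := ⟨by
  unfold RU.D
  have e : Cod.c (M := M) '' (univ : Set (Matrix (Fin k) (Fin l) α)) =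
      ⋂ i, {z | z ∘ (fun s => (i, s)) ∈ Cod.c (M := M) '' (univ : Set α)} := by
    ext z
    rw [mem_iInter]
    constructor
    · rintro ⟨x, -, rfl⟩ i
      exact ⟨x i.1 i.2, mem_univ _, rfl⟩
    · intro h
      choose x hx using fun i => h i
      refine ⟨Matrix.of fun i j => x (i, j), mem_univ _, ?_⟩
      funext p
      exact congrFun (hx p.1).2 p.2
  rw [e]
  exact Def_iInter _ fun i => U.pull _ _ _ _ Ful.full⟩

/-- the coordinates of a vector -/
theorem DFn_apply {k : ℕ} [Ful U α] (i : Fin k) : DFn U (fun x : Fin k → α => x i) := by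
  unfold DFn RU.D
  have e : Cod.c (M := M) '' {p : (Fin k → α) × α | p.2 = p.1 i} =
      {z | z ∘ Sum.inl ∈ Cod.c (M := M) '' (univ : Set (Fin k → α))} ∩
        {z | z ∘ (Sum.elim (fun s => Sum.inl (i, s)) fun s => Sum.inr s) ∈
          Cod.c (M := M) '' {p : α × α | p.1 = p.2}} := by
    ext z
    constructor
    · rintro ⟨p, hp, rfl⟩
      refine ⟨⟨p.1, mem_univ _, rfl⟩, ⟨(p.1 i, p.2), Eq.symm hp, ?_⟩⟩
      funext s
      rcases s with s | s <;> rfl
    · rintro ⟨⟨x, -, h1⟩, ⟨q, hq, h2⟩⟩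
      have hx : x i = q.1 := Cod.inj (M := M) (funext fun s =>
        (congrFun h1 (i, s)).trans (congrFun h2 (Sum.inl s)).symm)
      refine ⟨(x, x i), rfl, ?_⟩
      funext s
      rcases s with s | s
      · exact congrFun h1 s
      · have h3 : x i = q.2 := hx.trans hq
        change Cod.c (x i) s = _
        rw [h3]
        exact congrFun h2 (Sum.inr s)
  rw [e]
  exact U.inter _ _ _ (U.pull _ _ _ _ Ful.full) (U.pull _ _ _ _ D_eqp)

theorem DFn_entry {k l : ℕ} [Ful U α] (i : Fin k) (j : Fin l) :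
    DFn U (fun A : Matrix (Fin k) (Fin l) α => A i j) := by
  unfold DFn RU.D
  have e : Cod.c (M := M) '' {p : (Matrix (Fin k) (Fin l) α) × α | p.2 = p.1 i j} =
      {z | z ∘ Sum.inl ∈ Cod.c (M := M) '' (univ : Set (Matrix (Fin k) (Fin l) α))} ∩
        {z | z ∘ (Sum.elim (fun s => Sum.inl ((i, j), s)) fun s => Sum.inr s) ∈
          Cod.c (M := M) '' {p : α × α | p.1 = p.2}} := by
    ext z
    constructor
    · rintro ⟨p, hp, rfl⟩
      refine ⟨⟨p.1, mem_univ _, rfl⟩, ⟨(p.1 i j, p.2), Eq.symm hp, ?_⟩⟩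
      funext s
      rcases s with s | s <;> rfl
    · rintro ⟨⟨x, -, h1⟩, ⟨q, hq, h2⟩⟩
      have hx : x i j = q.1 := Cod.inj (M := M) (funext fun s =>
        (congrFun h1 ((i, j), s)).trans (congrFun h2 (Sum.inl s)).symm)
      refine ⟨(x, x i j), rfl, ?_⟩
      funext s
      rcases s with s | s
      · exact congrFun h1 s
      · have h3 : x i j = q.2 := hx.trans hq
        change Cod.c (x i j) s = _
        rw [h3]
        exact congrFun h2 (Sum.inr s)
  rw [e]
  exact U.inter _ _ _ (U.pull _ _ _ _ Ful.full) (U.pull _ _ _ _ D_eqp)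

/-- vectors are definable if the coordinates are definable -/
theorem DFn_vec {k : ℕ} [Ful U α] [Ful U β] {f : α → Fin k → β}
    (hf : ∀ i, DFn U fun a => f a i) : DFn U f := by
  have h : U.D {p : α × (Fin k → β) | ∀ i, p.2 i = f p.1 i} :=
    D_forall_fin fun i => D_eqf (DFn_comp (DFn_apply i) DFn_snd) (DFn_comp (hf i) DFn_fst)
  unfold DFn
  have e : {p : α × (Fin k → β) | p.2 = f p.1} = {p | ∀ i, p.2 i = f p.1 i} := by
    ext p
    exact funext_iff
  rwa [e]

theorem DFn_mat {k l : ℕ} [Ful U α] [Ful U β] {f : α → Matrix (Fin k) (Fin l) β}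
    (hf : ∀ i j, DFn U fun a => f a i j) : DFn U f := by
  have h : U.D {p : α × Matrix (Fin k) (Fin l) β | ∀ i j, p.2 i j = f p.1 i j} :=
    D_forall_fin fun i => D_forall_fin fun j =>
      D_eqf (DFn_comp (DFn_entry i j) DFn_snd) (DFn_comp (hf i j) DFn_fst)
  unfold DFn
  have e : {p : α × Matrix (Fin k) (Fin l) β | p.2 = f p.1} =
      {p | ∀ i j, p.2 i j = f p.1 i j} := by
    ext p
    exact Matrix.ext_iff.symm
  rwa [e]

section Field

variable {K : Type} [Field K] [Cod M K] [DF U K]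

theorem DFn_add2 : DFn U (fun p : K × K => p.1 + p.2) := DF.add

theorem DFn_mul2 : DFn U (fun p : K × K => p.1 * p.2) := DF.mul

variable [Ful U α]

theorem DFn_add {f g : α → K} (hf : DFn U f) (hg : DFn U g) : DFn U (fun a => f a + g a) :=
  DFn_comp (g := fun p : K × K => p.1 + p.2) DFn_add2 (DFn_pair hf hg)

theorem DFn_mul {f g : α → K} (hf : DFn U f) (hg : DFn U g) : DFn U (fun a => f a * g a) :=
  DFn_comp (g := fun p : K × K => p.1 * p.2) DFn_mul2 (DFn_pair hf hg)

theorem DFn_neg {f : α → K} (hf : DFn U f) : DFn U (fun a => - f a) := by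
  have h := DFn_mul (DFn_const (U := U) (α := α) (-1 : K)) hf
  simpa using h

theorem DFn_sub {f g : α → K} (hf : DFn U f) (hg : DFn U g) : DFn U (fun a => f a - g a) := by
  have h := DFn_add hf (DFn_neg hg)
  simpa [sub_eq_add_neg] using h

theorem DFn_pow {f : α → K} (hf : DFn U f) (n : ℕ) : DFn U (fun a => f a ^ n) := by
  induction n with
  | zero =>
    have h := DFn_const (U := U) (α := α) (1 : K)
    simpa using h
  | succ n ih =>
    have h := DFn_mul ih hf
    simpa [pow_succ] using h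

theorem DFn_sum {κ : Type} (s : Finset κ) {f : κ → α → K} (hf : ∀ k ∈ s, DFn U (f k)) :
    DFn U (fun a => ∑ k ∈ s, f k a) := by
  classical
  induction s using Finset.induction_on with
  | empty =>
    have h := DFn_const (U := U) (α := α) (0 : K)
    simpa using h
  | insert k s hk ih =>
    have h := DFn_add (hf k (Finset.mem_insert_self k s))
      (ih fun j hj => hf j (Finset.mem_insert_of_mem hj))
    simpa [Finset.sum_insert hk] using h

theorem DFn_prod {κ : Type} (s : Finset κ) {f : κ → α → K} (hf : ∀ k ∈ s, DFn U (f k)) :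
    DFn U (fun a => ∏ k ∈ s, f k a) := by
  classical
  induction s using Finset.induction_on with
  | empty =>
    have h := DFn_const (U := U) (α := α) (1 : K)
    simpa using h
  | insert k s hk ih =>
    have h := DFn_mul (hf k (Finset.mem_insert_self k s))
      (ih fun j hj => hf j (Finset.mem_insert_of_mem hj))
    simpa [Finset.prod_insert hk] using h

theorem DFn_inv {f : α → K} (hf : DFn U f) : DFn U (fun a => (f a)⁻¹) := by
  have h1 : DFn U (fun x : K => x⁻¹) := by
    unfold DFn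
    have h : U.D {p : K × K | (p.1 = 0 ∧ p.2 = 0) ∨ p.1 * p.2 = 1} :=
      D_or (D_and (D_eqf DFn_fst (DFn_const _)) (D_eqf DFn_snd (DFn_const _)))
        (D_eqf (DFn_mul DFn_fst DFn_snd) (DFn_const _))
    have e : {p : K × K | p.2 = p.1⁻¹} = {p : K × K | (p.1 = 0 ∧ p.2 = 0) ∨ p.1 * p.2 = 1} := by
      ext p
      constructor
      · intro h
        have h' : p.2 = p.1⁻¹ := h
        by_cases h0 : p.1 = 0
        · refine Or.inl ⟨h0, ?_⟩
          rw [h', h0, inv_zero]
        · refine Or.inr ?_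
          rw [h', mul_inv_cancel₀ h0]
      · rintro (⟨h1, h2⟩ | h)
        · change p.2 = p.1⁻¹
          rw [h1, h2, inv_zero]
        · exact eq_inv_of_mul_eq_one_right h
    rwa [e]
  exact DFn_comp h1 hf

/-! ### matrices -/

theorem DFn_matMul {k l m : ℕ} {f : α → Matrix (Fin k) (Fin l) K} {g : α → Matrix (Fin l) (Fin m) K}
    (hf : DFn U f) (hg : DFn U g) : DFn U (fun a => f a * g a) := by
  refine DFn_mat fun i j => ?_
  simp only [Matrix.mul_apply]
  exact DFn_sum _ fun x _ => DFn_mul (DFn_comp (DFn_entry i x) hf) (DFn_comp (DFn_entry x j) hg)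

theorem DFn_mulVec {k l : ℕ} {f : α → Matrix (Fin k) (Fin l) K} {g : α → Fin l → K}
    (hf : DFn U f) (hg : DFn U g) : DFn U (fun a => (f a).mulVec (g a)) := by
  refine DFn_vec fun i => ?_
  simp only [Matrix.mulVec, dotProduct]
  exact DFn_sum _ fun x _ => DFn_mul (DFn_comp (DFn_entry i x) hf) (DFn_comp (DFn_apply x) hg)

theorem DFn_vecMul {k l : ℕ} {f : α → Matrix (Fin k) (Fin l) K} {g : α → Fin k → K}
    (hf : DFn U f) (hg : DFn U g) : DFn U (fun a => Matrix.vecMul (g a) (f a)) := by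
  refine DFn_vec fun i => ?_
  simp only [Matrix.vecMul, dotProduct]
  exact DFn_sum _ fun x _ => DFn_mul (DFn_comp (DFn_apply x) hg) (DFn_comp (DFn_entry x i) hf)

theorem DFn_dot {k : ℕ} {f g : α → Fin k → K} (hf : DFn U f) (hg : DFn U g) :
    DFn U (fun a => f a ⬝ᵥ g a) := by
  simp only [dotProduct]
  exact DFn_sum _ fun x _ => DFn_mul (DFn_comp (DFn_apply x) hf) (DFn_comp (DFn_apply x) hg)

theorem DFn_smul {k : ℕ} {f : α → K} {g : α → Fin k → K} (hf : DFn U f) (hg : DFn U g) :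
    DFn U (fun a => f a • g a) := by
  refine DFn_vec fun i => ?_
  simp only [Pi.smul_apply, smul_eq_mul]
  exact DFn_mul hf (DFn_comp (DFn_apply i) hg)

theorem DFn_vadd {k : ℕ} {f g : α → Fin k → K} (hf : DFn U f) (hg : DFn U g) :
    DFn U (fun a => f a + g a) := by
  refine DFn_vec fun i => ?_
  simp only [Pi.add_apply]
  exact DFn_add (DFn_comp (DFn_apply i) hf) (DFn_comp (DFn_apply i) hg)

theorem DFn_madd {k l : ℕ} {f g : α → Matrix (Fin k) (Fin l) K} (hf : DFn U f) (hg : DFn U g) :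
    DFn U (fun a => f a + g a) := by
  refine DFn_mat fun i j => ?_
  simp only [Matrix.add_apply]
  exact DFn_add (DFn_comp (DFn_entry i j) hf) (DFn_comp (DFn_entry i j) hg)

theorem DFn_vecMulVec {k l : ℕ} {f : α → Fin k → K} {g : α → Fin l → K} (hf : DFn U f)
    (hg : DFn U g) : DFn U (fun a => Matrix.vecMulVec (f a) (g a)) := by
  refine DFn_mat fun i j => ?_
  simp only [Matrix.vecMulVec_apply]
  exact DFn_mul (DFn_comp (DFn_apply i) hf) (DFn_comp (DFn_apply j) hg)

theorem DFn_det {k : ℕ} {f : α → Matrix (Fin k) (Fin k) K} (hf : DFn U f) :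
    DFn U (fun a => (f a).det) := by
  simp only [Matrix.det_apply']
  exact DFn_sum _ fun σ _ => DFn_mul (DFn_const _)
    (DFn_prod _ fun i _ => DFn_comp (DFn_entry (σ i) i) hf)

theorem c_GL {k : ℕ} (X : Set (GL (Fin k) K)) : Cod.c (M := M) '' X =
    Cod.c (M := M) '' ((fun g : GL (Fin k) K => (g.val : Matrix (Fin k) (Fin k) K)) '' X) := by
  rw [image_image]
  rfl

theorem c_SL {k : ℕ} (X : Set (Matrix.SpecialLinearGroup (Fin k) K)) : Cod.c (M := M) '' X =
    Cod.c (M := M) '' ((fun g : Matrix.SpecialLinearGroup (Fin k) K =>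
      (g.val : Matrix (Fin k) (Fin k) K)) '' X) := by
  rw [image_image]
  rfl

instance fulGL {k : ℕ} : Ful U (GL (Fin k) K) := ⟨by
  unfold RU.D
  rw [c_GL]
  have h : U.D {A : Matrix (Fin k) (Fin k) K | ¬ A.det = 0} :=
    D_not (D_eqf (DFn_det DFn_id) (DFn_const _))
  have e : (fun g : GL (Fin k) K => (g.val : Matrix (Fin k) (Fin k) K)) '' univ =
      {A : Matrix (Fin k) (Fin k) K | ¬ A.det = 0} := by
    ext A
    constructor
    · rintro ⟨g, -, rfl⟩
      exact (Matrix.isUnits_det_units g).ne_zero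
    · intro h
      exact ⟨Matrix.GeneralLinearGroup.mkOfDetNeZero A h, mem_univ _, rfl⟩
  rw [e]
  exact h⟩

instance fulSL {k : ℕ} : Ful U (Matrix.SpecialLinearGroup (Fin k) K) := ⟨by
  unfold RU.D
  rw [c_SL]
  have h : U.D {A : Matrix (Fin k) (Fin k) K | A.det = 1} :=
    D_eqf (DFn_det DFn_id) (DFn_const _)
  have e : (fun g : Matrix.SpecialLinearGroup (Fin k) K =>
      (g.val : Matrix (Fin k) (Fin k) K)) '' univ = {A : Matrix (Fin k) (Fin k) K | A.det = 1} := by
    ext A
    constructor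
    · rintro ⟨g, -, rfl⟩
      exact g.2
    · intro h
      exact ⟨⟨A, h⟩, mem_univ _, rfl⟩
  rw [e]
  exact h⟩

/-- if the code of `β` is the code of `γ` after `v : β → γ`, then `v` is definable -/
theorem DFn_of_code {v : β → γ} [Ful U β] [Ful U γ] (s : Cod.ι M γ → Cod.ι M β)
    (hs : ∀ b, Cod.c (M := M) (v b) = Cod.c b ∘ s) : DFn U v := by
  unfold DFn RU.D
  have e : Cod.c (M := M) '' {p : β × γ | p.2 = v p.1} =
      {z | z ∘ Sum.inl ∈ Cod.c (M := M) '' (univ : Set β)} ∩
        ⋂ i, {z | z (Sum.inr i) = z (Sum.inl (s i))} := by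
    ext z
    rw [mem_inter_iff, mem_iInter]
    constructor
    · rintro ⟨p, hp, rfl⟩
      refine ⟨⟨p.1, mem_univ _, rfl⟩, fun i => ?_⟩
      change Cod.c p.2 i = Cod.c p.1 (s i)
      rw [show p.2 = v p.1 from hp, hs]
      rfl
    · rintro ⟨⟨a, _, h1⟩, h2⟩
      refine ⟨(a, v a), rfl, ?_⟩
      funext i
      rcases i with i | i
      · exact congrFun h1 i
      · have h3 : Cod.c (v a) i = Cod.c a (s i) := congrFun (hs a) i
        exact h3.trans ((congrFun h1 (s i)).trans (h2 i).symm)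
  rw [e]
  exact U.inter _ _ _ (U.pull _ _ _ _ Ful.full) (Def_iInter _ fun i => U.diag _ _ _)

theorem DFn_val {k : ℕ} : DFn U (fun g : GL (Fin k) K => (g.val : Matrix (Fin k) (Fin k) K)) :=
  DFn_of_code id fun _ => rfl

theorem DFn_sval {k : ℕ} : DFn U (fun g : Matrix.SpecialLinearGroup (Fin k) K =>
    (g.val : Matrix (Fin k) (Fin k) K)) :=
  DFn_of_code id fun _ => rfl

/-- functions to `GL` are definable if the matrix is definable -/
theorem DFn_gl {k : ℕ} {f : α → GL (Fin k) K}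
    (hf : DFn U fun a => ((f a).val : Matrix (Fin k) (Fin k) K)) : DFn U f := by
  have h := D_eqf (U := U) (α := α × GL (Fin k) K) (DFn_comp DFn_val DFn_snd)
    (DFn_comp hf DFn_fst)
  unfold DFn
  have e : {p : α × GL (Fin k) K | p.2 = f p.1} =
      {p | (p.2.val : Matrix (Fin k) (Fin k) K) = (f p.1).val} := by
    ext p
    exact Units.ext_iff
  rwa [e]

theorem DFn_glMul {k : ℕ} {f g : α → GL (Fin k) K} (hf : DFn U f) (hg : DFn U g) :
    DFn U (fun a => f a * g a) := by
  refine DFn_gl ?_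
  simp only [Units.val_mul]
  exact DFn_matMul (DFn_comp DFn_val hf) (DFn_comp DFn_val hg)

theorem DFn_glInv {k : ℕ} {f : α → GL (Fin k) K} (hf : DFn U f) :
    DFn U (fun a => (f a)⁻¹) := by
  have h := D_eqf (U := U) (α := α × GL (Fin k) K)
    (DFn_glMul (DFn_comp hf DFn_fst) DFn_snd) (DFn_const 1)
  unfold DFn
  have e : {p : α × GL (Fin k) K | p.2 = (f p.1)⁻¹} = {p | f p.1 * p.2 = 1} := by
    ext p
    exact ⟨fun h => mul_eq_one_iff_inv_eq.2 (Eq.symm h),
      fun h => (mul_eq_one_iff_inv_eq.1 h).symm⟩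
  rwa [e]

/-- functions to `SL` are definable if the matrix is definable -/
theorem DFn_sl {k : ℕ} {f : α → Matrix.SpecialLinearGroup (Fin k) K}
    (hf : DFn U fun a => ((f a).val : Matrix (Fin k) (Fin k) K)) : DFn U f := by
  have h := D_eqf (U := U) (α := α × Matrix.SpecialLinearGroup (Fin k) K) (DFn_comp DFn_sval DFn_snd)
    (DFn_comp hf DFn_fst)
  unfold DFn
  have e : {p : α × Matrix.SpecialLinearGroup (Fin k) K | p.2 = f p.1} =
      {p | (p.2.val : Matrix (Fin k) (Fin k) K) = (f p.1).val} := by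
    ext p
    exact Subtype.ext_iff
  rwa [e]

theorem DFn_slMul {k : ℕ} {f g : α → Matrix.SpecialLinearGroup (Fin k) K} (hf : DFn U f)
    (hg : DFn U g) : DFn U (fun a => f a * g a) := by
  refine DFn_sl ?_
  simp only [Matrix.SpecialLinearGroup.coe_mul]
  exact DFn_matMul (DFn_comp DFn_sval hf) (DFn_comp DFn_sval hg)

instance dgGL {k : ℕ} : DG U (GL (Fin k) K) := ⟨DFn_glMul DFn_fst DFn_snd⟩

instance dgSL {k : ℕ} : DG U (Matrix.SpecialLinearGroup (Fin k) K) := ⟨DFn_slMul DFn_fst DFn_snd⟩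

instance dvSelf : DV U K K := ⟨DF.add, DF.mul⟩

instance dvFun {k : ℕ} : DV U K (Fin k → K) :=
  ⟨DFn_vadd DFn_fst DFn_snd, DFn_smul DFn_fst DFn_snd⟩

instance dvMat {k l : ℕ} : DV U K (Matrix (Fin k) (Fin l) K) :=
  ⟨DFn_madd DFn_fst DFn_snd, DFn_mat fun i j => by
    simp only [Matrix.smul_apply, smul_eq_mul]
    exact DFn_mul DFn_fst (DFn_comp (DFn_entry i j) DFn_snd)⟩

instance dvProd {V W : Type} [AddCommGroup V] [AddCommGroup W] [Module K V] [Module K W]
    [Cod M V] [Cod M W] [DV U K V] [DV U K W] : DV U K (V × W) := by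
  have hV : Ful U V := (inferInstance : DV U K V).toFul
  have hW : Ful U W := (inferInstance : DV U K W).toFul
  refine ⟨?_, ?_⟩
  · exact DFn_pair
      (DFn_comp (g := fun p : V × V => p.1 + p.2) (DV.add K) (DFn_pair (DFn_comp DFn_fst DFn_fst)
        (DFn_comp DFn_fst DFn_snd)))
      (DFn_comp (g := fun p : W × W => p.1 + p.2) (DV.add K) (DFn_pair (DFn_comp DFn_snd DFn_fst)
        (DFn_comp DFn_snd DFn_snd)))
  · exact DFn_pair
      (DFn_comp (g := fun p : K × V => p.1 • p.2) DV.smul (DFn_pair DFn_fst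
        (DFn_comp DFn_fst DFn_snd)))
      (DFn_comp (g := fun p : K × W => p.1 • p.2) DV.smul (DFn_pair DFn_fst
        (DFn_comp DFn_snd DFn_snd)))

end Field

/-! ### groups -/

section Group

variable {Γ : Type} [Group Γ] [Cod M Γ] [DG U Γ] [Ful U α]

theorem DFn_gmul {f g : α → Γ} (hf : DFn U f) (hg : DFn U g) : DFn U (fun a => f a * g a) :=
  DFn_comp (g := fun p : Γ × Γ => p.1 * p.2) DG.mul (DFn_pair hf hg)

theorem DFn_ginv {f : α → Γ} (hf : DFn U f) : DFn U (fun a => (f a)⁻¹) := by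
  have h := D_eqf (U := U) (α := α × Γ)
    (DFn_gmul (DFn_comp hf DFn_fst) DFn_snd) (DFn_const 1)
  unfold DFn
  have e : {p : α × Γ | p.2 = (f p.1)⁻¹} = {p | f p.1 * p.2 = 1} := by
    ext p
    exact ⟨fun h => mul_eq_one_iff_inv_eq.2 (Eq.symm h),
      fun h => (mul_eq_one_iff_inv_eq.1 h).symm⟩
  rwa [e]

end Group

theorem dgMult {K V : Type} [Field K] [Cod M K] [AddCommGroup V] [Module K V] [Cod M V]
    [DV U K V] : DG U (Multiplicative V) := by
  have hV : Ful U V := (inferInstance : DV U K V).toFul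
  refine ⟨?_⟩
  have h : DFn U (fun p : V × V => p.1 + p.2) := DV.add K
  exact h

section Act

variable {G S : Type} [Group G] [MulAction G S] {U : RU (G ⊕ S)}

theorem PG.ful (h : PG G S U) : Ful U G := ⟨by
  unfold RU.D
  have e : Cod.c (M := G ⊕ S) '' (univ : Set G) = {x | ∃ g : G, x () = Sum.inl g} := by
    ext x
    constructor
    · rintro ⟨g, -, rfl⟩
      exact ⟨g, rfl⟩
    · rintro ⟨g, hg⟩
      refine ⟨g, mem_univ _, ?_⟩
      funext i
      exact hg.symm
  rw [e]
  exact h.grp⟩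

theorem PG.fulS (h : PG G S U) : Ful U S := ⟨by
  unfold RU.D
  have e : Cod.c (M := G ⊕ S) '' (univ : Set S) = {x | ∃ g : G, x () = Sum.inl g}ᶜ := by
    ext x
    constructor
    · rintro ⟨g, -, rfl⟩
      rintro ⟨g, hg⟩
      exact Sum.inr_ne_inl hg
    · intro hx
      cases hs : x () with
      | inl g => exact (hx ⟨g, hs⟩).elim
      | inr s =>
        refine ⟨s, mem_univ _, ?_⟩
        funext i
        exact hs.symm
  rw [e]
  exact U.compl _ _ h.grp⟩

theorem PG.dg (h : PG G S U) : DG U G := by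
  have _ := h.ful
  refine ⟨?_⟩
  unfold DFn RU.D
  have e : Cod.c (M := G ⊕ S) '' {p : (G × G) × G | p.2 = p.1.1 * p.1.2} =
      {z | z ∘ ![Sum.inl (Sum.inl ()), Sum.inl (Sum.inr ()), Sum.inr ()] ∈
        {x : Fin 3 → G ⊕ S | ∃ g h : G, x 0 = Sum.inl g ∧ x 1 = Sum.inl h ∧
          x 2 = Sum.inl (g * h)}} := by
    ext z
    constructor
    · rintro ⟨p, hp, rfl⟩
      refine ⟨p.1.1, p.1.2, rfl, rfl, ?_⟩
      exact congrArg Sum.inl hp
    · rintro ⟨g, h, h0, h1, h2⟩
      refine ⟨((g, h), g * h), rfl, ?_⟩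
      funext i
      rcases i with (i | i) | i
      · exact h0.symm
      · exact h1.symm
      · exact h2.symm
  rw [e]
  exact U.pull _ _ _ _ h.mul

theorem PG.dact (h : PG G S U) : DFn U (fun p : G × S => p.1 • p.2) := by
  have _ := h.ful
  have _ := h.fulS
  unfold DFn RU.D
  have e : Cod.c (M := G ⊕ S) '' {p : (G × S) × S | p.2 = p.1.1 • p.1.2} =
      {z | z ∘ ![Sum.inl (Sum.inl ()), Sum.inl (Sum.inr ()), Sum.inr ()] ∈
        {x : Fin 3 → G ⊕ S | ∃ (g : G) (s : S), x 0 = Sum.inl g ∧ x 1 = Sum.inr s ∧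
          x 2 = Sum.inr (g • s)}} := by
    ext z
    constructor
    · rintro ⟨p, hp, rfl⟩
      refine ⟨p.1.1, p.1.2, rfl, rfl, ?_⟩
      exact congrArg Sum.inr hp
    · rintro ⟨g, h, h0, h1, h2⟩
      refine ⟨((g, h), g • h), rfl, ?_⟩
      funext i
      rcases i with (i | i) | i
      · exact h0.symm
      · exact h1.symm
      · exact h2.symm
  rw [e]
  exact U.pull _ _ _ _ h.act

end Act

end Pool.Agent.H77.BC
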