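import Mathlib

/-!
# Ranked universes and definable sets in coded types (board bcp_modules, page H77_SLM.md)
-/

set_option autoImplicit false

open Set

namespace Pool.Agent.H77.BC

/-- A ranked universe on `M` (axioms of Borovik and Poizat): the definable subsets of `M ^ ι`, for
all finite sets `ι`, and their ranks. -/
structure RU (M : Type) where
  Def : (ι : Type) → [Finite ι] → Set (ι → M) → Prop
  rk : (ι : Type) → [Finite ι] → Set (ι → M) → ℕ
  full : ∀ (ι : Type) [Finite ι], Def ι univ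
  inter : ∀ (ι : Type) [Finite ι] (A B : Set (ι → M)), Def ι A → Def ι B → Def ι (A ∩ B)
  compl : ∀ (ι : Type) [Finite ι] (A : Set (ι → M)), Def ι A → Def ι Aᶜ
  point : ∀ (ι : Type) [Finite ι] (i : ι) (c : M), Def ι {x | x i = c}
  diag : ∀ (ι : Type) [Finite ι] (i j : ι), Def ι {x | x i = x j}
  pull : ∀ (ι κ : Type) [Finite ι] [Finite κ] (f : ι → κ) (A : Set (ι → M)), Def ι A →
    Def κ {y | y ∘ f ∈ A}
  image : ∀ (ι κ : Type) [Finite ι] [Finite κ] (f : ι → κ) (A : Set (κ → M)), Def κ A →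
    Def ι ((fun y => y ∘ f) '' A)
  /-- the rank is at least `n + 1` if and only if there are infinitely many disjoint subsets of rank
  at least `n` -/
  monotone : ∀ (ι : Type) [Finite ι] (A : Set (ι → M)) (n : ℕ), Def ι A → A.Nonempty →
    (n + 1 ≤ rk ι A ↔ ∃ B : ℕ → Set (ι → M),
      (∀ i, Def ι (B i) ∧ (B i).Nonempty ∧ B i ⊆ A ∧ n ≤ rk ι (B i)) ∧
        ∀ i j, i ≠ j → Disjoint (B i) (B j))
  /-- for a definable function, the set of the points whose fibre has rank `n` is definable -/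
  definable : ∀ (ι κ : Type) [Finite ι] [Finite κ] (A : Set (ι → M)) (B : Set (κ → M))
    (f : (ι → M) → (κ → M)) (n : ℕ), Def ι A → Def κ B → MapsTo f A B →
    Def (ι ⊕ κ) {z | z ∘ Sum.inl ∈ A ∧ z ∘ Sum.inr = f (z ∘ Sum.inl)} →
    Def κ {b | b ∈ B ∧ {a | a ∈ A ∧ f a = b}.Nonempty ∧ rk ι {a | a ∈ A ∧ f a = b} = n}
  /-- if all fibres of a definable function from `A` onto `B` have rank `n`, then `A` has the rank
  of `B` plus `n` -/
  additive : ∀ (ι κ : Type) [Finite ι] [Finite κ] (A : Set (ι → M)) (B : Set (κ → M))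
    (f : (ι → M) → (κ → M)) (n : ℕ), Def ι A → Def κ B → A.Nonempty → f '' A = B →
    Def (ι ⊕ κ) {z | z ∘ Sum.inl ∈ A ∧ z ∘ Sum.inr = f (z ∘ Sum.inl)} →
    (∀ b ∈ B, rk ι {a | a ∈ A ∧ f a = b} = n) → rk ι A = rk κ B + n

/-- a permutation group `(G, S)` in a ranked universe -/
structure PG (G S : Type) [Group G] [MulAction G S] (U : RU (G ⊕ S)) : Prop where
  grp : U.Def Unit {x | ∃ g : G, x () = Sum.inl g}
  mul : U.Def (Fin 3) {x | ∃ g h : G, x 0 = Sum.inl g ∧ x 1 = Sum.inl h ∧ x 2 = Sum.inl (g * h)}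
  act : U.Def (Fin 3) {x | ∃ (g : G) (s : S), x 0 = Sum.inl g ∧ x 1 = Sum.inr s ∧
    x 2 = Sum.inr (g • s)}

/-! ### coded types -/

/-- types whose elements are coded by finite tuples of elements of `M` -/
class Cod (M : Type) (α : Type) where
  ι : Type
  fin : Finite ι
  c : α → ι → M
  inj : Function.Injective c

attribute [instance] Cod.fin

variable {M : Type}

instance codSelf : Cod M M := ⟨Unit, inferInstance, fun x _ => x, fun _ _ h => congrFun h ()⟩

instance codProd {α β : Type} [Cod M α] [Cod M β] : Cod M (α × β) :=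
  ⟨Cod.ι M α ⊕ Cod.ι M β, inferInstance, fun p => Sum.elim (Cod.c p.1) (Cod.c p.2), by
    intro p q h
    refine Prod.ext (Cod.inj (M := M) (funext fun i => ?_)) (Cod.inj (M := M) (funext fun i => ?_))
    · exact congrFun h (Sum.inl i)
    · exact congrFun h (Sum.inr i)⟩

instance codFun {k : ℕ} {α : Type} [Cod M α] : Cod M (Fin k → α) :=
  ⟨Fin k × Cod.ι M α, inferInstance, fun x p => Cod.c (x p.1) p.2, fun _ _ h =>
    funext fun i => Cod.inj (M := M) (funext fun j => congrFun h (i, j))⟩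

instance codMat {k l : ℕ} {α : Type} [Cod M α] : Cod M (Matrix (Fin k) (Fin l) α) :=
  ⟨(Fin k × Fin l) × Cod.ι M α, inferInstance, fun A p => Cod.c (A p.1.1 p.1.2) p.2, fun _ _ h =>
    Matrix.ext fun i j => Cod.inj (M := M) (funext fun s => congrFun h ((i, j), s))⟩

instance codGL {K : Type} [Field K] [Cod M K] {k : ℕ} : Cod M (GL (Fin k) K) :=
  ⟨Cod.ι M (Matrix (Fin k) (Fin k) K), inferInstance,
    fun g => Cod.c (g.val : Matrix (Fin k) (Fin k) K), fun _ _ h =>
    Units.ext (Cod.inj (M := M) h)⟩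

instance codSL {K : Type} [Field K] [Cod M K] {k : ℕ} :
    Cod M (Matrix.SpecialLinearGroup (Fin k) K) :=
  ⟨Cod.ι M (Matrix (Fin k) (Fin k) K), inferInstance,
    fun g => Cod.c (g.val : Matrix (Fin k) (Fin k) K), fun _ _ h =>
    Subtype.ext (Cod.inj (M := M) h)⟩

instance codMult {α : Type} [Cod M α] : Cod M (Multiplicative α) :=
  ⟨Cod.ι M α, inferInstance, fun g => Cod.c g.toAdd, fun _ _ h =>
    Multiplicative.toAdd.injective (Cod.inj (M := M) h)⟩

instance codG {G S : Type} : Cod (G ⊕ S) G :=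
  ⟨Unit, inferInstance, fun g _ => Sum.inl g, fun _ _ h => Sum.inl_injective (congrFun h ())⟩

instance codS {G S : Type} : Cod (G ⊕ S) S :=
  ⟨Unit, inferInstance, fun s _ => Sum.inr s, fun _ _ h => Sum.inr_injective (congrFun h ())⟩

/-- definable sets of a coded type -/
def RU.D (U : RU M) {α : Type} [Cod M α] (X : Set α) : Prop := U.Def (Cod.ι M α) (Cod.c '' X)

/-- the rank of a definable set of a coded type -/
def RU.R (U : RU M) {α : Type} [Cod M α] (X : Set α) : ℕ := U.rk (Cod.ι M α) (Cod.c '' X)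

/-- definable types -/
class Ful (U : RU M) (α : Type) [Cod M α] : Prop where
  full : U.D (univ : Set α)

/-- definable functions -/
def DFn (U : RU M) {α β : Type} [Cod M α] [Cod M β] (f : α → β) : Prop :=
  U.D {p : α × β | p.2 = f p.1}

/-- definable fields -/
class DF (U : RU M) (K : Type) [Field K] [Cod M K] : Prop extends Ful U K where
  add : DFn U (fun p : K × K => p.1 + p.2)
  mul : DFn U (fun p : K × K => p.1 * p.2)

/-- definable vector spaces -/
class DV (U : RU M) (K V : Type) [Field K] [Cod M K] [AddCommGroup V] [Module K V] [Cod M V] :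
    Prop extends Ful U V where
  add : DFn U (fun p : V × V => p.1 + p.2)
  smul : DFn U (fun p : K × V => p.1 • p.2)

/-- definable groups -/
class DG (U : RU M) (Γ : Type) [Group Γ] [Cod M Γ] : Prop extends Ful U Γ where
  mul : DFn U (fun p : Γ × Γ => p.1 * p.2)

end Pool.Agent.H77.BC
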