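import Pool.Agent.H77.BC.Bas

/-!
# Groups of matrices (board bcp_modules, page H77_SLM.md)
-/

set_option autoImplicit false

open Set Matrix

namespace Pool.Agent.H77.BC

variable {K : Type} [Field K]

/-- `H` contains `SL` -/
def SLle {k : ℕ} (H : Subgroup (GL (Fin k) K)) : Prop :=
  ∀ g : GL (Fin k) K, (g.val : Matrix (Fin k) (Fin k) K).det = 1 → g ∈ H

/-- `1 + v ⊗ φ` is in `H` -/
def InT {k : ℕ} (H : Subgroup (GL (Fin k) K)) (v φ : Fin k → K) : Prop :=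
  ∃ g ∈ H, (g.val : Matrix (Fin k) (Fin k) K) = 1 + vecMulVec v φ

/-- the elementary matrix `1 + t E_ij` is in `H` -/
def InL {k : ℕ} (H : Subgroup (GL (Fin k) K)) (i j : Fin k) (t : K) : Prop :=
  ∃ g ∈ H, (g.val : Matrix (Fin k) (Fin k) K) = transvection i j t

/-- the conjugate `g⁻¹ H g` -/
def cj {Γ : Type} [Group Γ] (g : Γ) (H : Subgroup Γ) : Subgroup Γ :=
  H.comap (MulAut.conj g).toMonoidHom

theorem mem_cj {Γ : Type} [Group Γ] {g x : Γ} {H : Subgroup Γ} :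
    x ∈ cj g H ↔ g * x * g⁻¹ ∈ H := Iff.rfl

/-- the stabilizer of the line of `v` -/
def Pv {k : ℕ} (v : Fin k → K) : Subgroup (GL (Fin k) K) where
  carrier := {g | ∃ a : K, (g.val : Matrix (Fin k) (Fin k) K) *ᵥ v = a • v}
  one_mem' := ⟨1, by simp⟩
  mul_mem' := by
    rintro g h ⟨a, ha⟩ ⟨b, hb⟩
    refine ⟨a * b, ?_⟩
    rw [Units.val_mul, ← mulVec_mulVec, hb, mulVec_smul, ha, smul_smul, mul_comm b a]
  inv_mem' := by
    rintro g ⟨a, ha⟩
    refine ⟨a⁻¹, ?_⟩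
    have h1 : (g⁻¹).val *ᵥ (g.val *ᵥ v) = v := by
      rw [mulVec_mulVec, ← Units.val_mul, inv_mul_cancel, Units.val_one, one_mulVec]
    rw [ha, mulVec_smul] at h1
    by_cases h0 : a = 0
    · rw [h0, zero_smul] at h1
      rw [← h1]
      simp
    · have h2 := congrArg (fun x => a⁻¹ • x) h1
      simpa [smul_smul, inv_mul_cancel₀ h0] using h2

theorem mem_Pv {k : ℕ} {v : Fin k → K} {g : GL (Fin k) K} :
    g ∈ Pv v ↔ ∃ a : K, (g.val : Matrix (Fin k) (Fin k) K) *ᵥ v = a • v := Iff.rfl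

/-- the stabilizer of the hyperplane `χ = 0` -/
def Ph {k : ℕ} (χ : Fin k → K) : Subgroup (GL (Fin k) K) where
  carrier := {g | ∃ a : K, χ ᵥ* (g.val : Matrix (Fin k) (Fin k) K) = a • χ}
  one_mem' := ⟨1, by simp⟩
  mul_mem' := by
    rintro g h ⟨a, ha⟩ ⟨b, hb⟩
    refine ⟨a * b, ?_⟩
    rw [Units.val_mul, ← vecMul_vecMul, ha, smul_vecMul, hb, smul_smul]
  inv_mem' := by
    rintro g ⟨a, ha⟩
    refine ⟨a⁻¹, ?_⟩
    have h1 : (χ ᵥ* g.val) ᵥ* (g⁻¹).val = χ := by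
      rw [vecMul_vecMul, ← Units.val_mul, mul_inv_cancel, Units.val_one, vecMul_one]
    rw [ha, smul_vecMul] at h1
    by_cases h0 : a = 0
    · rw [h0, zero_smul] at h1
      rw [← h1]
      simp
    · have h2 := congrArg (fun x => a⁻¹ • x) h1
      simpa [smul_smul, inv_mul_cancel₀ h0] using h2

theorem mem_Ph {k : ℕ} {χ : Fin k → K} {g : GL (Fin k) K} :
    g ∈ Ph χ ↔ ∃ a : K, χ ᵥ* (g.val : Matrix (Fin k) (Fin k) K) = a • χ := Iff.rfl

/-- the first basis vector -/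
def e0 {k : ℕ} : Fin (k + 1) → K := Pi.single 0 1

/-- the matrix `(a φ; 0 B)` -/
def blm {k : ℕ} (a : K) (φ : Fin k → K) (B : Matrix (Fin k) (Fin k) K) :
    Matrix (Fin (k + 1)) (Fin (k + 1)) K :=
  Matrix.of (Fin.cons (Fin.cons a φ) fun i => Fin.cons 0 (B i))

section blm

variable {k : ℕ} (a b : K) (φ ψ : Fin k → K) (B C : Matrix (Fin k) (Fin k) K)

@[simp] theorem blm_00 : blm a φ B 0 0 = a := rfl

@[simp] theorem blm_0s (j : Fin k) : blm a φ B 0 j.succ = φ j := rfl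

@[simp] theorem blm_s0 (i : Fin k) : blm a φ B i.succ 0 = 0 := rfl

@[simp] theorem blm_ss (i j : Fin k) : blm a φ B i.succ j.succ = B i j := rfl

theorem blm_mul : blm a φ B * blm b ψ C = blm (a * b) (a • ψ + φ ᵥ* C) (B * C) := by
  ext i j
  rw [Matrix.mul_apply, Fin.sum_univ_succ]
  refine Fin.cases ?_ (fun i => ?_) i <;> refine Fin.cases ?_ (fun j => ?_) j
  · simp
  · simp [vecMul, dotProduct]
  · simp
  · simp [Matrix.mul_apply]

theorem blm_one : blm (1 : K) (0 : Fin k → K) 1 = 1 := by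
  ext i j
  refine Fin.cases ?_ (fun i => ?_) i <;> refine Fin.cases ?_ (fun j => ?_) j
  · simp
  · simp [Fin.ext_iff]
  · simp [Fin.ext_iff]
  · simp [Matrix.one_apply]

theorem blm_inj {a b : K} {φ ψ : Fin k → K} {B C : Matrix (Fin k) (Fin k) K}
    (h : blm a φ B = blm b ψ C) : a = b ∧ φ = ψ ∧ B = C := by
  refine ⟨?_, ?_, ?_⟩
  · simpa using congrFun (congrFun h 0) 0
  · funext j
    simpa using congrFun (congrFun h 0) j.succ
  · ext i j
    simpa using congrFun (congrFun h i.succ) j.succ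

/-- a matrix with first column `(*, 0)` is a block matrix -/
theorem eq_blm (A : Matrix (Fin (k + 1)) (Fin (k + 1)) K) (h : ∀ i : Fin k, A i.succ 0 = 0) :
    A = blm (A 0 0) (fun j => A 0 j.succ) (A.submatrix Fin.succ Fin.succ) := by
  ext i j
  refine Fin.cases ?_ (fun i => ?_) i <;> refine Fin.cases ?_ (fun j => ?_) j
  · simp
  · simp
  · simpa using h i
  · simp

theorem blm_det : (blm a φ B).det = a * B.det := by
  rw [Matrix.det_succ_column_zero, Fin.sum_univ_succ]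
  have h : ∀ i : Fin k, (-1 : K) ^ (i.succ : ℕ) * blm a φ B i.succ 0 *
      ((blm a φ B).submatrix i.succ.succAbove Fin.succ).det = 0 := by
    intro i
    simp
  rw [Finset.sum_eq_zero fun i _ => h i]
  have h2 : (blm a φ B).submatrix (Fin.succAbove 0) Fin.succ = B := by
    ext i j
    simp
  rw [h2]
  simp

end blm

/-- the block matrix as an element of the general linear group -/
def bl {k : ℕ} (a : Kˣ) (φ : Fin k → K) (B : GL (Fin k) K) : GL (Fin (k + 1)) K :=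
  ⟨blm (a : K) φ B.val, blm ((a⁻¹ : Kˣ) : K) (-(((a⁻¹ : Kˣ) : K) • (φ ᵥ* (B⁻¹).val))) (B⁻¹).val, by
    rw [blm_mul, ← blm_one, Units.mul_inv, ← Units.val_mul, mul_inv_cancel, Units.val_one]
    refine congrArg (fun x => blm 1 x 1) ?_
    rw [smul_neg, smul_smul, Units.mul_inv, one_smul, neg_add_cancel], by
    rw [blm_mul, ← blm_one, Units.inv_mul, ← Units.val_mul, inv_mul_cancel, Units.val_one]
    refine congrArg (fun x => blm 1 x 1) ?_
    rw [neg_vecMul, smul_vecMul, vecMul_vecMul, ← Units.val_mul, inv_mul_cancel,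
      Units.val_one, vecMul_one, add_neg_cancel]⟩

theorem bl_val {k : ℕ} (a : Kˣ) (φ : Fin k → K) (B : GL (Fin k) K) :
    ((bl a φ B).val : Matrix (Fin (k + 1)) (Fin (k + 1)) K) = blm (a : K) φ B.val := rfl

theorem bl_mul {k : ℕ} (a b : Kˣ) (φ ψ : Fin k → K) (B C : GL (Fin k) K) :
    bl a φ B * bl b ψ C = bl (a * b) ((a : K) • ψ + φ ᵥ* C.val) (B * C) :=
  Units.ext (blm_mul _ _ _ _ _ _)

theorem bl_one {k : ℕ} : bl 1 0 1 = (1 : GL (Fin (k + 1)) K) := Units.ext blm_one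

theorem bl_inv {k : ℕ} (a : Kˣ) (φ : Fin k → K) (B : GL (Fin k) K) :
    (bl a φ B)⁻¹ = bl a⁻¹ (-(((a⁻¹ : Kˣ) : K) • (φ ᵥ* (B⁻¹).val))) B⁻¹ := by
  apply Units.ext
  rfl

theorem bl_inj {k : ℕ} {a b : Kˣ} {φ ψ : Fin k → K} {B C : GL (Fin k) K}
    (h : bl a φ B = bl b ψ C) : a = b ∧ φ = ψ ∧ B = C := by
  have h' := blm_inj (congrArg Units.val h)
  exact ⟨Units.ext h'.1, h'.2.1, Units.ext h'.2.2⟩

/-- an invertible block matrix -/
theorem eq_bl {k : ℕ} (g : GL (Fin (k + 1)) K) {a : K} {φ : Fin k → K}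
    {B : Matrix (Fin k) (Fin k) K} (h : (g.val : Matrix _ _ K) = blm a φ B) :
    ∃ (a' : Kˣ) (B' : GL (Fin k) K), (a' : K) = a ∧ B'.val = B ∧ g = bl a' φ B' := by
  have hd : (g.val : Matrix _ _ K).det ≠ 0 := (Matrix.isUnits_det_units g).ne_zero
  rw [h, blm_det] at hd
  refine ⟨Units.mk0 a (left_ne_zero_of_mul hd),
    Matrix.GeneralLinearGroup.mkOfDetNeZero B (right_ne_zero_of_mul hd), rfl, rfl, ?_⟩
  exact Units.ext h

theorem mem_Pv_e0 {k : ℕ} {g : GL (Fin (k + 1)) K} :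
    g ∈ Pv (e0 (K := K)) ↔ ∃ (a : Kˣ) (φ : Fin k → K) (B : GL (Fin k) K), g = bl a φ B := by
  constructor
  · rintro ⟨a, ha⟩
    have h0 : ∀ i : Fin k, (g.val : Matrix _ _ K) i.succ 0 = 0 := by
      intro i
      have h1 := congrFun ha i.succ
      simpa [e0] using h1
    obtain ⟨a', B', -, -, h⟩ := eq_bl g (eq_blm _ h0)
    exact ⟨a', _, B', h⟩
  · rintro ⟨a, φ, B, rfl⟩
    refine ⟨a, ?_⟩
    funext i
    rw [bl_val]
    refine Fin.cases ?_ (fun i => ?_) i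
    · simp [e0]
    · simp [e0]

/-- the image of `H ∩ Pv e0` in `GL_k` -/
def rho {k : ℕ} (H : Subgroup (GL (Fin (k + 1)) K)) : Subgroup (GL (Fin k) K) where
  carrier := {B | ∃ (a : Kˣ) (φ : Fin k → K), bl a φ B ∈ H}
  one_mem' := ⟨1, 0, by rw [bl_one]; exact H.one_mem⟩
  mul_mem' := by
    rintro B C ⟨a, φ, h1⟩ ⟨b, ψ, h2⟩
    have h := H.mul_mem h1 h2
    rw [bl_mul] at h
    exact ⟨_, _, h⟩
  inv_mem' := by
    rintro B ⟨a, φ, h1⟩
    have h := H.inv_mem h1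
    rw [bl_inv] at h
    exact ⟨_, _, h⟩

theorem mem_rho {k : ℕ} {H : Subgroup (GL (Fin (k + 1)) K)} {B : GL (Fin k) K} :
    B ∈ rho H ↔ ∃ (a : Kˣ) (φ : Fin k → K), bl a φ B ∈ H := Iff.rfl

/-- the transvections with centre `e0` in `H` -/
def AA {k : ℕ} (H : Subgroup (GL (Fin (k + 1)) K)) : AddSubgroup (Fin k → K) where
  carrier := {φ | bl 1 φ 1 ∈ H}
  zero_mem' := by
    change bl 1 0 1 ∈ H
    rw [bl_one]
    exact H.one_mem
  add_mem' := by
    intro φ ψ h1 h2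
    have h := H.mul_mem h1 h2
    rw [bl_mul] at h
    change bl 1 (φ + ψ) 1 ∈ H
    have e : ((1 : Kˣ) : K) • ψ + φ ᵥ* ((1 : GL (Fin k) K).val) = φ + ψ := by
      rw [Units.val_one, one_smul, Units.val_one, vecMul_one, add_comm]
    rwa [e, mul_one, mul_one] at h
  neg_mem' := by
    intro φ h1
    have h := H.inv_mem h1
    rw [bl_inv] at h
    change bl 1 (-φ) 1 ∈ H
    have e : -((((1 : Kˣ)⁻¹ : Kˣ) : K) • (φ ᵥ* ((1 : GL (Fin k) K)⁻¹).val)) = -φ := by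
      rw [inv_one, inv_one, Units.val_one, one_smul, Units.val_one, vecMul_one]
    rwa [e, inv_one, inv_one] at h

theorem mem_AA {k : ℕ} {H : Subgroup (GL (Fin (k + 1)) K)} {φ : Fin k → K} :
    φ ∈ AA H ↔ bl 1 φ 1 ∈ H := Iff.rfl

/-! ### types of vectors -/

/-- all transvections with centre `v` are in `H` -/
def Ty0 {k : ℕ} (H : Subgroup (GL (Fin k) K)) (v : Fin k → K) : Prop :=
  ∀ φ, φ ⬝ᵥ v = 0 → InT H v φ

/-- the transvections with centre `v` whose hyperplane contains `u` are in `H`, and all complete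
groups of transvections with centre `v` in `H` are of this kind -/
def Ty1 {k : ℕ} (H : Subgroup (GL (Fin k) K)) (v : Fin k → K) : Prop :=
  ∃ u : Fin k → K, (∀ a : K, u ≠ a • v) ∧ (∀ φ, φ ⬝ᵥ v = 0 → φ ⬝ᵥ u = 0 → InT H v φ) ∧
    ∀ φ, (∀ t : K, InT H v (t • φ)) → φ ⬝ᵥ u = 0

/-- the stabilizer of the line of `v` in `H` is the stabilizer of the line and of a hyperplane that
does not contain `v` -/
def Tyk {k : ℕ} (H : Subgroup (GL (Fin k) K)) (v : Fin k → K) : Prop :=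
  ∃ χ : Fin k → K, χ ⬝ᵥ v ≠ 0 ∧ H ⊓ Pv v = Pv v ⊓ Ph χ

end Pool.Agent.H77.BC
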