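import Pool.Agent.H77.BC.Mat

/-!
# Targets (board bcp_modules, page H77_SLM.md)

Every row proves one of these statements, with other statements of this file as hypotheses.
`U.D X`: the set `X` is definable; `U.R X`: its rank. `R univ` of the field is called `f` in the notes.
-/

set_option autoImplicit false

open Set Matrix

namespace Pool.Agent.H77.BC

variable {M : Type}

/-! ## Rank -/

/-- RKA: first properties of the rank -/
structure RKA (U : RU M) : Prop where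
  mono : ∀ {α : Type} [Cod M α] {X Y : Set α}, U.D X → U.D Y → X.Nonempty → X ⊆ Y →
    U.R X ≤ U.R Y
  union : ∀ {α : Type} [Cod M α] {X Y : Set α}, U.D X → U.D Y → X.Nonempty → Y.Nonempty →
    U.R (X ∪ Y) = max (U.R X) (U.R Y)
  fin : ∀ {α : Type} [Cod M α] {X : Set α}, U.D X → X.Nonempty → (U.R X = 0 ↔ X.Finite)
  split : ∀ {α : Type} [Cod M α] {X : Set α} {n : ℕ} (B : ℕ → Set α), U.D X →
    (∀ i, U.D (B i) ∧ (B i).Nonempty ∧ B i ⊆ X ∧ n ≤ U.R (B i)) →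
    (∀ i j, i ≠ j → Disjoint (B i) (B j)) → n + 1 ≤ U.R X

/-- RKB: fibrations -/
structure RKB (U : RU M) : Prop where
  fib_def : ∀ {α β : Type} [Cod M α] [Cod M β] [Ful U α] [Ful U β] {X : Set α} {f : α → β} (n : ℕ),
    U.D X → DFn U f → U.D {b | b ∈ f '' X ∧ U.R {a | a ∈ X ∧ f a = b} = n}
  fib_eq : ∀ {α β : Type} [Cod M α] [Cod M β] [Ful U α] [Ful U β] {X : Set α} {f : α → β} {n : ℕ},
    U.D X → DFn U f → X.Nonempty → (∀ b ∈ f '' X, U.R {a | a ∈ X ∧ f a = b} = n) →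
    U.R X = U.R (f '' X) + n
  fib_le : ∀ {α β : Type} [Cod M α] [Cod M β] [Ful U α] [Ful U β] {X : Set α} {f : α → β} {n : ℕ},
    U.D X → DFn U f → X.Nonempty → (∀ b ∈ f '' X, U.R {a | a ∈ X ∧ f a = b} ≤ n) →
    U.R X ≤ U.R (f '' X) + n
  fib_ge : ∀ {α β : Type} [Cod M α] [Cod M β] [Ful U α] [Ful U β] {X : Set α} {f : α → β} {n : ℕ},
    U.D X → DFn U f → X.Nonempty → (∀ b ∈ f '' X, n ≤ U.R {a | a ∈ X ∧ f a = b}) →
    U.R (f '' X) + n ≤ U.R X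
  inj : ∀ {α β : Type} [Cod M α] [Cod M β] [Ful U α] [Ful U β] {X : Set α} {f : α → β},
    U.D X → DFn U f → X.Nonempty → InjOn f X → U.R (f '' X) = U.R X
  prod : ∀ {α β : Type} [Cod M α] [Cod M β] [Ful U α] [Ful U β] {X : Set α} {Y : Set β},
    U.D X → U.D Y → X.Nonempty → Y.Nonempty → U.R (X ×ˢ Y) = U.R X + U.R Y
  sec_def : ∀ {α β : Type} [Cod M α] [Cod M β] [Ful U α] [Ful U β] {Z : Set (α × β)} (n : ℕ),
    U.D Z → U.D {a | (∃ b, (a, b) ∈ Z) ∧ U.R {b | (a, b) ∈ Z} = n}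
  sec_eq : ∀ {α β : Type} [Cod M α] [Cod M β] [Ful U α] [Ful U β] {Z : Set (α × β)} {n : ℕ},
    U.D Z → Z.Nonempty → (∀ a, (∃ b, (a, b) ∈ Z) → U.R {b | (a, b) ∈ Z} = n) →
    U.R Z = U.R {a | ∃ b, (a, b) ∈ Z} + n
  sec_le : ∀ {α β : Type} [Cod M α] [Cod M β] [Ful U α] [Ful U β] {Z : Set (α × β)} {n : ℕ},
    U.D Z → Z.Nonempty → (∀ a, (∃ b, (a, b) ∈ Z) → U.R {b | (a, b) ∈ Z} ≤ n) →
    U.R Z ≤ U.R {a | ∃ b, (a, b) ∈ Z} + n

/-! ## Groups -/

/-- GRA: finite index and rank -/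
def GRA (U : RU M) : Prop := ∀ {Γ : Type} [Group Γ] [Cod M Γ] [DG U Γ] (H L : Subgroup Γ),
  U.D (H : Set Γ) → U.D (L : Set Γ) → L ≤ H →
    (L.relIndex H ≠ 0 ↔ U.R (H : Set Γ) ≤ U.R (L : Set Γ))

/-- GRD: chain condition, as finite intersections -/
def GRD (U : RU M) : Prop := ∀ {Γ : Type} [Group Γ] [Cod M Γ] [DG U Γ] {I : Type}
  (s : I → Subgroup Γ), (∀ i, U.D (s i : Set Γ)) → ∃ J : Finset I, ∀ i, (⨅ j ∈ J, s j) ≤ s i

/-- GRC: rank of image and kernel -/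
def GRC (U : RU M) : Prop := ∀ {Γ β : Type} [Group Γ] [Cod M Γ] [DG U Γ] [Cod M β] [Ful U β]
  (H L : Subgroup Γ) (φ : Γ → β), U.D (H : Set Γ) → U.D (L : Set Γ) → L ≤ H → DFn U φ →
    (∀ a ∈ H, ∀ b ∈ H, (φ a = φ b ↔ a⁻¹ * b ∈ L)) →
    U.R (H : Set Γ) = U.R (φ '' (H : Set Γ)) + U.R (L : Set Γ)

/-- GRB: rank of an intersection -/
def GRB (U : RU M) : Prop := ∀ {Γ : Type} [Group Γ] [Cod M Γ] [DG U Γ] (G0 H L : Subgroup Γ),
  U.D (G0 : Set Γ) → U.D (H : Set Γ) → U.D (L : Set Γ) → H ≤ G0 → L ≤ G0 →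
    U.R (H : Set Γ) + U.R (L : Set Γ) ≤ U.R (G0 : Set Γ) + U.R ((H ⊓ L : Subgroup Γ) : Set Γ)

/-- connected definable groups -/
def Conn (U : RU M) {Γ : Type} [Group Γ] [Cod M Γ] (H : Subgroup Γ) : Prop :=
  U.D (H : Set Γ) ∧ ∀ L : Subgroup Γ, L ≤ H → U.D (L : Set Γ) →
    U.R (H : Set Γ) ≤ U.R (L : Set Γ) → L = H

/-- CNA: definable automorphisms -/
def CNA (U : RU M) : Prop := ∀ {Γ : Type} [Group Γ] [Cod M Γ] [DG U Γ] (σ : Γ ≃* Γ),
  DFn U (fun g : Γ => σ g) → ∀ H : Subgroup Γ, U.D (H : Set Γ) →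
    U.D ((H.comap σ.toMonoidHom : Subgroup Γ) : Set Γ) ∧
    U.R ((H.comap σ.toMonoidHom : Subgroup Γ) : Set Γ) = U.R (H : Set Γ) ∧
    (Conn U H → Conn U (H.comap σ.toMonoidHom))

/-- CNJ: conjugates -/
def CNJ (U : RU M) : Prop := ∀ {Γ : Type} [Group Γ] [Cod M Γ] [DG U Γ] (g : Γ) (H : Subgroup Γ),
  U.D (H : Set Γ) → U.D (cj g H : Set Γ) ∧ U.R (cj g H : Set Γ) = U.R (H : Set Γ) ∧
    (Conn U H → Conn U (cj g H))

/-- DEG: in a connected group two definable sets of full rank meet -/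
def DEG (U : RU M) : Prop := ∀ {Γ : Type} [Group Γ] [Cod M Γ] [DG U Γ] (H : Subgroup Γ),
  Conn U H → ∀ X Y : Set Γ, U.D X → U.D Y → X ⊆ H → Y ⊆ H → X.Nonempty → Y.Nonempty →
    U.R (H : Set Γ) ≤ U.R X → U.R (H : Set Γ) ≤ U.R Y → (X ∩ Y).Nonempty

/-! ## Fields -/

/-- FCN: the additive group of an infinite definable field is connected -/
def FCN (U : RU M) : Prop := ∀ {K : Type} [Field K] [Cod M K] [DF U K] [Infinite K]
  (A : AddSubgroup K), U.D (A : Set K) → U.R (univ : Set K) ≤ U.R (A : Set K) → A = ⊤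

/-- FDG: two definable subsets of full rank of an infinite definable field meet -/
def FDG (U : RU M) : Prop := ∀ {K : Type} [Field K] [Cod M K] [DF U K] [Infinite K]
  (X Y : Set K), U.D X → U.D Y → X.Nonempty → Y.Nonempty →
    U.R (univ : Set K) ≤ U.R X → U.R (univ : Set K) ≤ U.R Y → (X ∩ Y).Nonempty

/-- FSP: roots, and roots of `y ^ p - y = x` -/
def FSP (U : RU M) : Prop := ∀ {K : Type} [Field K] [Cod M K] [DF U K] [Infinite K],
  (∀ q : ℕ, 0 < q → ∀ x : K, ∃ y : K, y ^ q = x) ∧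
    ∀ p : ℕ, p.Prime → CharP K p → ∀ x : K, ∃ y : K, y ^ p - y = x

/-- FSL: the same for definable subfields -/
def FSL (U : RU M) : Prop := ∀ {K : Type} [Field K] [Cod M K] [DF U K] (L : Subfield K),
  U.D (L : Set K) → (L : Set K).Infinite →
    (∀ q : ℕ, 0 < q → ∀ x ∈ L, ∃ y ∈ L, y ^ q = x) ∧
      ∀ p : ℕ, p.Prime → CharP K p → ∀ x ∈ L, ∃ y ∈ L, y ^ p - y = x

/-- SRF: infinite definable subrings are fields -/
def SRF (U : RU M) : Prop := ∀ {K : Type} [Field K] [Cod M K] [DF U K] (R : AddSubgroup K),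
  U.D (R : Set K) → (∀ x ∈ R, ∀ y ∈ R, x * y ∈ R) → (R : Set K).Infinite →
    ∃ E : Subfield K, (E : Set K) = R

/-- FDE: finite dimension -/
def FDE (U : RU M) : Prop := ∀ {K : Type} [Field K] [Cod M K] [DF U K] (E : Subfield K),
  U.D (E : Set K) → (E : Set K).Infinite → FiniteDimensional E K

/-- EDF: intermediate fields are definable -/
def EDF (U : RU M) : Prop := ∀ {K : Type} [Field K] [Cod M K] [DF U K] (E L : Subfield K),
  U.D (E : Set K) → FiniteDimensional E K → E ≤ L → U.D (L : Set K)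

/-- GAL: pure algebra -/
def GAL : Prop := ∀ {K : Type} [Field K] [IsAlgClosed K] (E : Subfield K),
  FiniteDimensional E K →
  (∀ L : Subfield K, E ≤ L → (∀ q : ℕ, 0 < q → ∀ x ∈ L, ∃ y ∈ L, y ^ q = x) ∧
    ∀ p : ℕ, p.Prime → CharP K p → ∀ x ∈ L, ∃ y ∈ L, y ^ p - y = x) → E = ⊤

/-- RNG: infinite definable subrings of an algebraically closed field -/
def RNG (U : RU M) : Prop := ∀ {K : Type} [Field K] [IsAlgClosed K] [Cod M K] [DF U K]
  (R : AddSubgroup K), U.D (R : Set K) → (∀ x ∈ R, ∀ y ∈ R, x * y ∈ R) →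
    (R : Set K).Infinite → R = ⊤

/-- MUL: definable groups with infinitely many multipliers -/
def MUL (U : RU M) : Prop := ∀ {K : Type} [Field K] [IsAlgClosed K] [Cod M K] [DF U K]
  (Λ : AddSubgroup K), U.D (Λ : Set K) → Λ ≠ ⊥ → {l : K | ∀ x ∈ Λ, l * x ∈ Λ}.Infinite → Λ = ⊤

/-! ## Vector spaces -/

/-- ADC: definable vector spaces are connected -/
def ADC (U : RU M) : Prop := ∀ (K : Type) {V : Type} [Field K] [Cod M K] [DF U K] [Infinite K]
  [AddCommGroup V] [Module K V] [Cod M V] [DV U K V] (A : AddSubgroup V), U.D (A : Set V) →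
    U.R (univ : Set V) ≤ U.R (A : Set V) → A = ⊤

/-- ADB: rank of an intersection -/
def ADB (U : RU M) : Prop := ∀ (K : Type) {V : Type} [Field K] [Cod M K] [DF U K]
  [AddCommGroup V] [Module K V] [Cod M V] [DV U K V] (A B : AddSubgroup V), U.D (A : Set V) →
    U.D (B : Set V) → U.R (A : Set V) + U.R (B : Set V) ≤
      U.R (univ : Set V) + U.R ((A ⊓ B : AddSubgroup V) : Set V)

/-- DGV: two definable subsets of full rank of a vector space meet -/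
def DGV (U : RU M) : Prop := ∀ (K : Type) {V : Type} [Field K] [Cod M K] [DF U K] [Infinite K]
  [AddCommGroup V] [Module K V] [Cod M V] [DV U K V] (X Y : Set V), U.D X → U.D Y →
    X.Nonempty → Y.Nonempty → U.R (univ : Set V) ≤ U.R X → U.R (univ : Set V) ≤ U.R Y →
    (X ∩ Y).Nonempty

/-- OPN: connected groups from injective maps to vector spaces of the same rank -/
def OPN (U : RU M) : Prop := ∀ (K : Type) {V Γ : Type} [Field K] [Cod M K] [DF U K] [Infinite K]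
  [AddCommGroup V] [Module K V] [Cod M V] [DV U K V] [Group Γ] [Cod M Γ] [DG U Γ]
  (H : Subgroup Γ) (j : Γ → V), U.D (H : Set Γ) → DFn U j → InjOn j (H : Set Γ) →
    U.R (univ : Set V) ≤ U.R (H : Set Γ) → Conn U H

/-- RNV: ranks of the spaces of vectors and matrices -/
def RNV (U : RU M) : Prop := ∀ {K : Type} [Field K] [Cod M K] [DF U K] (k l : ℕ),
  U.R (univ : Set (Fin k → K)) = k * U.R (univ : Set K) ∧
    U.R (univ : Set (Matrix (Fin k) (Fin l) K)) = k * l * U.R (univ : Set K)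

/-- RKS: nonzero elements -/
def RKS (U : RU M) : Prop := ∀ {K : Type} [Field K] [Cod M K] [DF U K] [Infinite K],
  1 ≤ U.R (univ : Set K) ∧ U.R ({x : K | x ≠ 0}) = U.R (univ : Set K) ∧
    ∀ k : ℕ, U.R ({x : Fin (k + 1) → K | x ≠ 0}) = (k + 1) * U.R (univ : Set K)

/-- RGL: rank of the general linear group -/
def RGL (U : RU M) : Prop := ∀ {K : Type} [Field K] [Cod M K] [DF U K] [Infinite K] (k : ℕ),
  U.R (univ : Set (GL (Fin k) K)) = k * k * U.R (univ : Set K)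

/-- RPE: the group `Pv e0` -/
def RPE (U : RU M) : Prop := ∀ {K : Type} [Field K] [Cod M K] [DF U K] [Infinite K] (k : ℕ),
  U.D ((Pv e0 : Subgroup (GL (Fin (k + 1)) K)) : Set (GL (Fin (k + 1)) K)) ∧
    U.R ((Pv e0 : Subgroup (GL (Fin (k + 1)) K)) : Set (GL (Fin (k + 1)) K)) =
      (k * k + k + 1) * U.R (univ : Set K)

/-- CGL: the general linear group is connected -/
def CGL (U : RU M) : Prop := ∀ {K : Type} [Field K] [Cod M K] [DF U K] [Infinite K] (k : ℕ),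
  Conn U (⊤ : Subgroup (GL (Fin k) K)) ∧ Conn U (Pv e0 : Subgroup (GL (Fin (k + 1)) K))

/-- PVH: the groups `Pv v` and `Ph χ` -/
def PVH (U : RU M) : Prop := ∀ {K : Type} [Field K] [Cod M K] [DF U K] [Infinite K] (k : ℕ)
  (v : Fin (k + 1) → K), v ≠ 0 → (Conn U (Pv v) ∧
    U.R ((Pv v : Subgroup (GL (Fin (k + 1)) K)) : Set (GL (Fin (k + 1)) K)) =
      (k * k + k + 1) * U.R (univ : Set K)) ∧ Conn U (Ph v) ∧
    U.R ((Ph v : Subgroup (GL (Fin (k + 1)) K)) : Set (GL (Fin (k + 1)) K)) =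
      (k * k + k + 1) * U.R (univ : Set K)

/-! ## Algebra of matrices -/

/-- COM: commutators -/
def COM : Prop := ∀ {K : Type} [Field K] {k : ℕ} (H : Subgroup (GL (Fin (k + 1)) K))
  (s s' : GL (Fin k) K), s ∈ rho H → s' ∈ rho H → ∀ φ ∈ AA H,
    φ ᵥ* ((s * s' * s⁻¹ * s'⁻¹).val : Matrix (Fin k) (Fin k) K) ∈ AA H

/-- CMS: elementary matrices are commutators in `SL` -/
def CMS : Prop := ∀ {K : Type} [Field K] [Infinite K] {k : ℕ} (i j : Fin k) (t : K), i ≠ j →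
  ∃ s s' : GL (Fin k) K, (s.val : Matrix (Fin k) (Fin k) K).det = 1 ∧
    (s'.val : Matrix (Fin k) (Fin k) K).det = 1 ∧
    ((s * s' * s⁻¹ * s'⁻¹).val : Matrix (Fin k) (Fin k) K) = transvection i j t

/-- CMG: transvections are commutators in stabilizers -/
def CMG : Prop := ∀ {K : Type} [Field K] [Infinite K] {k : ℕ} (w η ζ : Fin k → K),
  η ⬝ᵥ w = 0 → ζ ⬝ᵥ w = 1 → ∃ (s s' : GL (Fin k) K) (a b : K),
    (s.val : Matrix (Fin k) (Fin k) K) = 1 + vecMulVec w (a • ζ) ∧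
    (s'.val : Matrix (Fin k) (Fin k) K) = 1 + vecMulVec w (b • η) ∧
    ((s * s' * s⁻¹ * s'⁻¹).val : Matrix (Fin k) (Fin k) K) = 1 + vecMulVec w η

/-- SLA: additive groups of vectors stable under elementary matrices -/
def SLA : Prop := ∀ {K : Type} [Field K] {k : ℕ}, 2 ≤ k → ∀ A : AddSubgroup (Fin k → K),
  (∀ (i j : Fin k) (t : K), i ≠ j → ∀ φ ∈ A, φ ᵥ* transvection i j t ∈ A) → A = ⊥ ∨ A = ⊤

/-- SLG: the elementary matrices generate `SL` -/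
def SLG : Prop := ∀ {K : Type} [Field K] {k : ℕ} (H : Subgroup (GL (Fin k) K)),
  (∀ (i j : Fin k) (t : K), i ≠ j → InL H i j t) → SLle H

/-- BGN: bounded generation of `SL` -/
def BGN : Prop := ∀ (K : Type) [Field K] (m : ℕ), ∃ N : ℕ, ∀ A : Matrix (Fin m) (Fin m) K,
  A.det = 1 → ∃ L : List (TransvectionStruct (Fin m) K), L.length ≤ N ∧
    (L.map TransvectionStruct.toMatrix).prod = A

/-- CJT: conjugates and transvections with centre `g e0` -/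
def CJT : Prop := ∀ {K : Type} [Field K] {k : ℕ} (H : Subgroup (GL (Fin (k + 1)) K))
  (g : GL (Fin (k + 1)) K) (φ : Fin k → K), φ ∈ AA (cj g H) ↔
    InT H ((g.val : Matrix _ _ K) *ᵥ e0)
      ((Fin.cons 0 φ : Fin (k + 1) → K) ᵥ* ((g⁻¹).val : Matrix _ _ K))

/-- CJL: permutation matrices -/
def CJL : Prop := ∀ {K : Type} [Field K] {k : ℕ} (i j : Fin (k + 1)), i ≠ j →
  ∃ (g : GL (Fin (k + 1)) K) (l : Fin k), ∀ (H : Subgroup (GL (Fin (k + 1)) K)) (t : K),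
    (Pi.single l t : Fin k → K) ∈ AA (cj g H) ↔ InL H i j t

/-! ## Theorem (M) -/

/-- REC: the recursion -/
def REC (U : RU M) : Prop := ∀ {K : Type} [Field K] [Cod M K] [DF U K] [Infinite K] (k : ℕ)
  (H : Subgroup (GL (Fin (k + 1)) K)), U.D (H : Set (GL (Fin (k + 1)) K)) →
    U.D (rho H : Set (GL (Fin k) K)) ∧ U.D (AA H : Set (Fin k → K)) ∧
    U.R (H : Set (GL (Fin (k + 1)) K)) ≤ U.R (rho H : Set (GL (Fin k) K)) +
      U.R (AA H : Set (Fin k → K)) + (k + 1) * U.R (univ : Set K)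

/-- Theorem (M) for `GL_{k+1}` -/
def MT (U : RU M) (K : Type) [Field K] [Cod M K] (k : ℕ) : Prop :=
  ∀ H : Subgroup (GL (Fin (k + 1)) K), U.D (H : Set (GL (Fin (k + 1)) K)) →
    (k + 1) * (k + 1) * U.R (univ : Set K) < U.R (H : Set (GL (Fin (k + 1)) K)) +
      k * U.R (univ : Set K) → SLle H

/-- M2A: `k = 1` -/
def M2A (U : RU M) : Prop := ∀ {K : Type} [Field K] [IsAlgClosed K] [Cod M K] [DF U K]
  (H : Subgroup (GL (Fin 2) K)), U.D (H : Set (GL (Fin 2) K)) →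
    4 * U.R (univ : Set K) < U.R (H : Set (GL (Fin 2) K)) + U.R (univ : Set K) →
    AA (k := 1) H = ⊤

/-- MSA: `r < f` -/
def MSA (U : RU M) : Prop := ∀ {K : Type} [Field K] [Cod M K] [DF U K] [Infinite K]
  (k : ℕ), 1 ≤ k → MT U K k → ∀ H : Subgroup (GL (Fin (k + 2)) K),
    U.D (H : Set (GL (Fin (k + 2)) K)) →
    (k + 2) * (k + 2) * U.R (univ : Set K) < U.R (H : Set (GL (Fin (k + 2)) K)) +
      (k + 1) * U.R (univ : Set K) →
    (k + 1) * U.R (univ : Set K) < U.R (AA (k := k + 1) H : Set (Fin (k + 1) → K)) +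
      U.R (univ : Set K)

/-- LIN: lines in large additive groups -/
def LIN (U : RU M) : Prop := ∀ {K : Type} [Field K] [Cod M K] [DF U K] [Infinite K] (k : ℕ)
  (A : AddSubgroup (Fin k → K)), U.D (A : Set (Fin k → K)) →
    k * U.R (univ : Set K) < U.R (A : Set (Fin k → K)) + U.R (univ : Set K) →
    ∀ j : Fin k, {t : K | (Pi.single j t : Fin k → K) ∈ A}.Infinite

/-- LAM: infinitely many elementary matrices -/
def LAM (U : RU M) : Prop := ∀ {K : Type} [Field K] [IsAlgClosed K] [Cod M K] [DF U K] (k : ℕ),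
  3 ≤ k → ∀ H : Subgroup (GL (Fin k) K), U.D (H : Set (GL (Fin k) K)) →
    (∀ i j : Fin k, i ≠ j → {t : K | InL H i j t}.Infinite) → SLle H

/-- MK: Theorem (M) -/
def MK (U : RU M) : Prop := ∀ {K : Type} [Field K] [IsAlgClosed K] [Cod M K] [DF U K] (k : ℕ),
  1 ≤ k → MT U K k

/-! ## Theorem (E) -/

/-- Theorem (E) for `GL_{k+1}` -/
def ET (U : RU M) (K : Type) [Field K] [Cod M K] (k : ℕ) : Prop :=
  ∀ H : Subgroup (GL (Fin (k + 1)) K), U.D (H : Set (GL (Fin (k + 1)) K)) →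
    (k + 1) * (k + 1) ≤ U.R (H : Set (GL (Fin (k + 1)) K)) + k →
    SLle H ∨ (∃ u : Fin (k + 1) → K, u ≠ 0 ∧ H = Pv u) ∨
      ∃ χ : Fin (k + 1) → K, χ ≠ 0 ∧ H = Ph χ

/-- E2A: algebra in `GL_2` -/
def E2A : Prop := ∀ {K : Type} [Field K] [IsAlgClosed K] (H : Subgroup (GL (Fin 2) K)),
  ¬ ∀ v : Fin 2 → K, v ≠ 0 → ∃ v' : Fin 2 → K, (∀ a : K, v' ≠ a • v) ∧
    H ⊓ Pv v = Pv v ⊓ Pv v'

/-- E2B: rank in `GL_2` -/
def E2B (U : RU M) : Prop := ∀ {K : Type} [Field K] [IsAlgClosed K] [Cod M K] [DF U K],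
  U.R (univ : Set K) = 1 → ∀ H : Subgroup (GL (Fin 2) K), U.D (H : Set (GL (Fin 2) K)) →
    4 ≤ U.R (H : Set (GL (Fin 2) K)) + 1 → Ty0 H (e0 (k := 1)) ∨
      ∃ v' : Fin 2 → K, (∀ a : K, v' ≠ a • e0 (k := 1)) ∧
        H ⊓ Pv (e0 (k := 1)) = Pv (e0 (k := 1)) ⊓ Pv v'

/-- E2C: Theorem (E) for `GL_2` -/
def E2C (U : RU M) : Prop := ∀ {K : Type} [Field K] [IsAlgClosed K] [Cod M K] [DF U K],
  U.R (univ : Set K) = 1 → ET U K 1

/-- ECR: equality from the rank -/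
def ECR (U : RU M) : Prop := ∀ {K : Type} [Field K] [Cod M K] [DF U K] [Infinite K],
  U.R (univ : Set K) = 1 → ∀ (k : ℕ) (H : Subgroup (GL (Fin (k + 1)) K)),
    U.D (H : Set (GL (Fin (k + 1)) K)) →
    (k + 1) * (k + 1) ≤ U.R (H : Set (GL (Fin (k + 1)) K)) + k →
    ∀ v : Fin (k + 1) → K, v ≠ 0 → (H ≤ Pv v → H = Pv v) ∧ (H ≤ Ph v → H = Ph v)

/-- TYA: `r ≥ 2` -/
def TYA (U : RU M) : Prop := ∀ {K : Type} [Field K] [Cod M K] [DF U K] [Infinite K],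
  U.R (univ : Set K) = 1 → ∀ k : ℕ, 1 ≤ k → MT U K k → ∀ H : Subgroup (GL (Fin (k + 2)) K),
    U.D (H : Set (GL (Fin (k + 2)) K)) →
    (k + 2) * (k + 2) ≤ U.R (H : Set (GL (Fin (k + 2)) K)) + (k + 1) →
    U.R (AA (k := k + 1) H : Set (Fin (k + 1) → K)) + 2 ≤ k + 1 → Tyk H (e0 (k := k + 1))

/-- TYB: `r = 0` -/
def TYB (U : RU M) : Prop := ∀ {K : Type} [Field K] [Cod M K] [DF U K] [Infinite K],
  U.R (univ : Set K) = 1 → ∀ (k : ℕ) (H : Subgroup (GL (Fin (k + 1)) K)),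
    U.D (H : Set (GL (Fin (k + 1)) K)) → k ≤ U.R (AA H : Set (Fin k → K)) → Ty0 H e0

/-- TC1: the group `A` when the image is a stabilizer of a point -/
def TC1 (U : RU M) : Prop := ∀ {K : Type} [Field K] [Cod M K] [DF U K] [Infinite K],
  U.R (univ : Set K) = 1 → ∀ k : ℕ, 1 ≤ k → ∀ A : AddSubgroup (Fin (k + 1) → K),
    U.D (A : Set (Fin (k + 1) → K)) → U.R (A : Set (Fin (k + 1) → K)) = k →
    ∀ u : Fin (k + 1) → K, u ≠ 0 →
    (∀ s ∈ Pv u, ∀ s' ∈ Pv u, ∀ φ ∈ A,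
      φ ᵥ* ((s * s' * s⁻¹ * s'⁻¹).val : Matrix _ _ K) ∈ A) →
    (∀ φ : Fin (k + 1) → K, φ ⬝ᵥ u = 0 → φ ∈ A) ∧
      ∀ φ : Fin (k + 1) → K, (∀ t : K, t • φ ∈ A) → φ ⬝ᵥ u = 0

/-- TC2: the group `A` when the image is a stabilizer of a hyperplane -/
def TC2 (U : RU M) : Prop := ∀ {K : Type} [Field K] [Cod M K] [DF U K] [Infinite K],
  U.R (univ : Set K) = 1 → ∀ k : ℕ, 1 ≤ k → ∀ A : AddSubgroup (Fin (k + 1) → K),
    U.D (A : Set (Fin (k + 1) → K)) → U.R (A : Set (Fin (k + 1) → K)) = k →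
    ∀ χ : Fin (k + 1) → K, χ ≠ 0 →
    (∀ s ∈ Ph χ, ∀ s' ∈ Ph χ, ∀ φ ∈ A,
      φ ᵥ* ((s * s' * s⁻¹ * s'⁻¹).val : Matrix _ _ K) ∈ A) →
    ∃ u : Fin (k + 1) → K, u ≠ 0 ∧ Ph χ = Pv u

/-- TYC: `r = 1` -/
def TYC (U : RU M) : Prop := ∀ {K : Type} [Field K] [Cod M K] [DF U K] [Infinite K],
  U.R (univ : Set K) = 1 → ∀ k : ℕ, 1 ≤ k → ET U K k → ∀ H : Subgroup (GL (Fin (k + 2)) K),
    U.D (H : Set (GL (Fin (k + 2)) K)) →
    (k + 2) * (k + 2) ≤ U.R (H : Set (GL (Fin (k + 2)) K)) + (k + 1) →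
    U.R (AA (k := k + 1) H : Set (Fin (k + 1) → K)) = k → Ty1 H (e0 (k := k + 1))

/-- TYV: types of the other vectors -/
def TYV : Prop := ∀ {K : Type} [Field K] {k : ℕ} (H : Subgroup (GL (Fin (k + 1)) K)),
  (∀ v : Fin (k + 1) → K, v ≠ 0 → ∃ g : GL (Fin (k + 1)) K, (g.val : Matrix _ _ K) *ᵥ e0 = v) ∧
  ∀ g : GL (Fin (k + 1)) K, (Ty0 (cj g H) e0 → Ty0 H ((g.val : Matrix _ _ K) *ᵥ e0)) ∧
    (Ty1 (cj g H) e0 → Ty1 H ((g.val : Matrix _ _ K) *ᵥ e0)) ∧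
    (Tyk (cj g H) e0 → Tyk H ((g.val : Matrix _ _ K) *ᵥ e0)) ∧
    ((∃ v' : Fin (k + 1) → K, (∀ a : K, v' ≠ a • e0) ∧ cj g H ⊓ Pv e0 = Pv e0 ⊓ Pv v') →
      ∃ v' : Fin (k + 1) → K, (∀ a : K, v' ≠ a • ((g.val : Matrix _ _ K) *ᵥ e0)) ∧
        H ⊓ Pv ((g.val : Matrix _ _ K) *ᵥ e0) = Pv ((g.val : Matrix _ _ K) *ᵥ e0) ⊓ Pv v')

/-- EAA: a vector of type `k` -/
def EAA : Prop := ∀ {K : Type} [Field K] [Infinite K] {k : ℕ}, 1 ≤ k →
  ∀ (H : Subgroup (GL (Fin (k + 2)) K)) (v : Fin (k + 2) → K), Tyk H v →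
    ∃ χ : Fin (k + 2) → K, χ ≠ 0 ∧ H ≤ Ph χ

/-- EBA: two vectors -/
def EBA : Prop := ∀ {K : Type} [Field K] {k : ℕ} (H : Subgroup (GL (Fin k) K))
  (v w u : Fin k → K), v ≠ 0 → w ≠ 0 →
    (∀ φ, φ ⬝ᵥ v = 0 → φ ⬝ᵥ u = 0 → InT H v φ) →
    (∀ φ, (∀ t : K, InT H v (t • φ)) → φ ⬝ᵥ u = 0) →
    (∀ a b : K, w ≠ a • v + b • u) →
    (∀ ψ : Fin k → K, ψ ⬝ᵥ w = 0 → ψ ⬝ᵥ v = 0 → InT H w ψ → ψ ⬝ᵥ u = 0)

/-- EBB: all vectors of type 0 or 1 -/
def EBB : Prop := ∀ {K : Type} [Field K] [Infinite K] {k : ℕ}, 1 ≤ k →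
  ∀ H : Subgroup (GL (Fin (k + 2)) K),
    (∀ v : Fin (k + 2) → K, v ≠ 0 → Ty0 H v ∨ Ty1 H v) →
    SLle H ∨ ∃ u : Fin (k + 2) → K, u ≠ 0 ∧ H ≤ Pv u

/-- EK: Theorem (E) -/
def EK (U : RU M) : Prop := ∀ {K : Type} [Field K] [IsAlgClosed K] [Cod M K] [DF U K],
  U.R (univ : Set K) = 1 → ∀ k : ℕ, 1 ≤ k → ET U K k

/-! ## Transfer to permutation groups -/

/-- the elementary matrices `1 + t E_01` -/
def sx {K : Type} [Field K] {m : ℕ} (t : K) : SpecialLinearGroup (Fin (m + 2)) K :=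
  ⟨transvection 0 1 t, det_transvection_of_ne _ _ (by simp) t⟩

/-- TRA: root groups in the quotient of `SL` by its centre -/
def TRA : Prop := ∀ {K G : Type} [Field K] [Group G] (m : ℕ)
  (π : SpecialLinearGroup (Fin (m + 2)) K →* G), Function.Surjective π →
    π.ker = Subgroup.center _ → Function.Injective (fun t : K => π (sx t)) ∧
    ∀ g : G, (∀ h : G, h * π (sx 1) = π (sx 1) * h → g * h = h * g) ↔ ∃ t : K, g = π (sx t)

/-- TRB: the multiplication of the field -/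
def TRB : Prop := ∀ {K G : Type} [Field K] [IsAlgClosed K] [Group G] (m : ℕ)
  (π : SpecialLinearGroup (Fin (m + 2)) K →* G), Function.Surjective π →
    π.ker = Subgroup.center _ → ∀ a b c : K, a ≠ 0 →
      ((∃ h : G, h * π (sx 1) * h⁻¹ = π (sx a) ∧ h * π (sx b) * h⁻¹ = π (sx c)) ↔ c = a * b)

/-- TRC: the other root groups -/
def TRC : Prop := ∀ {K : Type} [Field K] (m : ℕ) (i j : Fin (m + 2)), i ≠ j →
  ∃ (w : SpecialLinearGroup (Fin (m + 2)) K) (c : K), c ≠ 0 ∧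
    ∀ t : K, ((w * sx t * w⁻¹).val : Matrix _ _ K) = transvection i j (c * t)

/-- TRX: the field and the map from `SL` are definable -/
def TRX : Prop := ∀ {G S : Type} [Group G] [MulAction G S] (U : RU (G ⊕ S)), PG G S U →
  ∀ {K : Type} [Field K] [IsAlgClosed K] (m : ℕ) (π : SpecialLinearGroup (Fin (m + 2)) K →* G),
    Function.Surjective π → π.ker = Subgroup.center _ →
    ∃ c : Cod (G ⊕ S) K, @DF (G ⊕ S) U K _ c ∧
      @DFn (G ⊕ S) U (SpecialLinearGroup (Fin (m + 2)) K) G (@codSL (G ⊕ S) K _ c (m + 2)) codG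
        (fun A => π A)

/-- RST: the stabilizers -/
def RST : Prop := ∀ {G S : Type} [Group G] [MulAction G S] (U : RU (G ⊕ S)), PG G S U →
  MulAction.IsPretransitive G S → ∀ {K : Type} [Field K] [Cod (G ⊕ S) K] [DF U K] (m : ℕ)
    (π : SpecialLinearGroup (Fin (m + 2)) K →* G), Function.Surjective π →
    π.ker = Subgroup.center _ → DFn U (fun A : SpecialLinearGroup (Fin (m + 2)) K => π A) →
    ∀ s : S,
      U.D (((MulAction.stabilizer G s).comap π : Subgroup _) :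
        Set (SpecialLinearGroup (Fin (m + 2)) K)) ∧
      U.R (((MulAction.stabilizer G s).comap π : Subgroup _) :
        Set (SpecialLinearGroup (Fin (m + 2)) K)) + U.R (univ : Set S) =
          U.R (univ : Set (SpecialLinearGroup (Fin (m + 2)) K)) ∧
      U.R (univ : Set (SpecialLinearGroup (Fin (m + 2)) K)) = U.R (univ : Set G)

/-- the group generated by `H` and the scalar matrices -/
def hz {K : Type} [Field K] {k : ℕ} (H : Subgroup (SpecialLinearGroup (Fin k) K)) :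
    Subgroup (GL (Fin k) K) where
  carrier := {g | ∃ (z : Kˣ) (A : SpecialLinearGroup (Fin k) K), A ∈ H ∧
    (g.val : Matrix (Fin k) (Fin k) K) = (z : K) • A.val}
  one_mem' := ⟨1, 1, H.one_mem, by simp⟩
  mul_mem' := by
    rintro g h ⟨z, A, hA, e1⟩ ⟨y, B, hB, e2⟩
    refine ⟨z * y, A * B, H.mul_mem hA hB, ?_⟩
    have h : (A * B).val = A.val * B.val := rfl
    rw [h, Units.val_mul, Units.val_mul, e1, e2, smul_mul_smul_comm]
  inv_mem' := by
    rintro g ⟨z, A, hA, e1⟩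
    refine ⟨z⁻¹, A⁻¹, H.inv_mem hA, ?_⟩
    refine Units.inv_eq_of_mul_eq_one_right ?_
    have h : A.val * (A⁻¹).val = 1 := congrArg Subtype.val (mul_inv_cancel A)
    rw [e1, smul_mul_smul_comm, Units.mul_inv, one_smul, h]

/-- HZA: algebra of `hz` -/
def HZA : Prop := ∀ {K : Type} [Field K] [IsAlgClosed K] {k : ℕ}, 2 ≤ k →
  hz (⊤ : Subgroup (SpecialLinearGroup (Fin k) K)) = ⊤ ∧
  ∀ H : Subgroup (SpecialLinearGroup (Fin k) K), (SLle (hz H) → H = ⊤) ∧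
    (Subgroup.center _ ≤ H → ∀ A : SpecialLinearGroup (Fin k) K, A ∈ H ↔
      ∃ g ∈ hz H, (g.val : Matrix (Fin k) (Fin k) K) = A.val)

/-- HZR: rank of `hz` -/
def HZR (U : RU M) : Prop := ∀ {K : Type} [Field K] [IsAlgClosed K] [Cod M K] [DF U K] {k : ℕ},
  1 ≤ k → ∀ H : Subgroup (SpecialLinearGroup (Fin k) K),
    U.D (H : Set (SpecialLinearGroup (Fin k) K)) → U.D (hz H : Set (GL (Fin k) K)) ∧
    U.R (hz H : Set (GL (Fin k) K)) = U.R (H : Set (SpecialLinearGroup (Fin k) K)) +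
      U.R (univ : Set K)

/-- the natural action of `PSL_{n+1}(K)` on `P^n(K)` -/
def NatAct (G S K : Type) [Group G] [MulAction G S] [Field K] (n : ℕ) : Prop :=
  ∃ (φ : G ≃* ProjectiveSpecialLinearGroup (Fin (n + 1)) K)
    (b : S ≃ Projectivization K (Fin (n + 1) → K)),
    ∀ (g : G) (A : SpecialLinearGroup (Fin (n + 1)) K), φ g = QuotientGroup.mk A →
      ∀ (x : S) (v : Fin (n + 1) → K) (hv : v ≠ 0) (hw : A.val *ᵥ v ≠ 0),
        b x = Projectivization.mk K v hv → b (g • x) = Projectivization.mk K (A.val *ᵥ v) hw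

/-- FIA: identification -/
def FIA : Prop := ∀ {G S K : Type} [Group G] [MulAction G S] [Field K] (n : ℕ), 1 ≤ n →
  MulAction.IsPretransitive G S → ∀ π : SpecialLinearGroup (Fin (n + 1)) K →* G,
    Function.Surjective π → π.ker = Subgroup.center _ → ∀ (s : S) (u : Fin (n + 1) → K), u ≠ 0 →
    (∀ A : SpecialLinearGroup (Fin (n + 1)) K, π A • s = s ↔ ∃ a : K, A.val *ᵥ u = a • u) →
    NatAct G S K n

/-- FIB: identification, dual case -/
def FIB : Prop := ∀ {G S K : Type} [Group G] [MulAction G S] [Field K] (n : ℕ), 1 ≤ n →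
  MulAction.IsPretransitive G S → ∀ π : SpecialLinearGroup (Fin (n + 1)) K →* G,
    Function.Surjective π → π.ker = Subgroup.center _ → ∀ (s : S) (χ : Fin (n + 1) → K), χ ≠ 0 →
    (∀ A : SpecialLinearGroup (Fin (n + 1)) K, π A • s = s ↔ ∃ a : K, χ ᵥ* A.val = a • χ) →
    NatAct G S K n

/-- generic `μ`-transitivity -/
def GenTr {G S : Type} [Group G] [MulAction G S] (U : RU (G ⊕ S)) (μ : ℕ) : Prop :=
  ∃ s : Fin μ → S, {x : Fin μ → S | ¬ ∃ g : G, ∀ i, x i = g • s i}.Nonempty →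
    U.R {x : Fin μ → S | ¬ ∃ g : G, ∀ i, x i = g • s i} < U.R (univ : Set (Fin μ → S))

/-- GTR: rank of `G` from generic transitivity -/
def GTR : Prop := ∀ {G S : Type} [Group G] [MulAction G S] (U : RU (G ⊕ S)), PG G S U →
  ∀ μ : ℕ, GenTr U μ → μ * U.R (univ : Set S) ≤ U.R (univ : Set G)

/-- FNL: the theorem -/
def FNL : Prop := ∀ {G S : Type} [Group G] [MulAction G S] (U : RU (G ⊕ S)), PG G S U →
  MulAction.IsPretransitive G S → FaithfulSMul G S → ∀ {K : Type} [Field K] [IsAlgClosed K]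
    (m : ℕ), 2 ≤ m → Nonempty (G ≃* ProjectiveSpecialLinearGroup (Fin m) K) →
    U.R (univ : Set G) ≤ (m + 1) * U.R (univ : Set S) ∧
    (1 ≤ U.R (univ : Set S) →
      (U.R (univ : Set S) * (U.R (univ : Set S) + 2) ≤ U.R (univ : Set G) ∨
        GenTr U (U.R (univ : Set S) + 2)) →
      m = U.R (univ : Set S) + 1 ∧ NatAct G S K (U.R (univ : Set S)))

end Pool.Agent.H77.BC
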